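import Pool.Agent.P.MP_7a71fe_lc.AC.Main

/-! An isomorphism from two invertible length-increasing reductions. -/

namespace Pool.Agent.P.MP_7a71fe_lc.LD

open Pool.Agent.Lib.Helper47 Pool.Agent.P.MP_ba7db8_lc Pool.Agent.P.MP_7a71fe_lc.AC

/-- `B` reduces to `C` by an invertible length-increasing reduction. -/
def Emb (B C : Set Str) : Prop := ∃ g D : Str → Str, PT g ∧ PT D ∧
  (∀ x, D (g x) = x ∧ x.length < (g x).length) ∧ ∀ x, x ∈ B ↔ g x ∈ C

variable (F G : Bool × Str → Bool × Str)

/-- One step back. -/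
def bk (s : Bool × Str) : Bool × Str := if F (G s) = s then G s else s

/-- The first ancestor. -/
def root (s : Bool × Str) : Bool × Str := (bk F G)^[s.2.length] s

/-- The involution. -/
def inv (s : Bool × Str) : Bool × Str := if (root F G s).1 = s.1 then F s else G s

variable {F G} (h1 : ∀ s, G (F s) = s) (h2 : ∀ s, s.2.length < (F s).2.length)
include h2

theorem bk_lt (s : Bool × Str) : bk F G s = s ∨ (bk F G s).2.length < s.2.length := by
  unfold bk
  split_ifs with e
  exacts [.inr (by simpa [e] using h2 (G s)), .inl rfl]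

theorem root_eq {n : ℕ} {s : Bool × Str} (h : s.2.length ≤ n) : (bk F G)^[n] s = root F G s := by
  suffices ∀ m n s, s.2.length ≤ m → s.2.length ≤ n → (bk F G)^[m] s = (bk F G)^[n] s from
    this _ _ _ h le_rfl
  intro m
  induction m with
  | zero => exact fun n s a _ =>
      (Function.iterate_fixed ((bk_lt h2 s).resolve_right (by omega)) n).symm
  | succ m ih =>
    intro n s a b
    rcases bk_lt h2 s with e | e
    · rw [Function.iterate_fixed e, Function.iterate_fixed e]
    · obtain ⟨n, rfl⟩ : ∃ k, n = k + 1 := ⟨n - 1, by omega⟩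
      exact ih n _ (by omega) (by omega)

include h1

theorem root_F (s : Bool × Str) : root F G (F s) = root F G s := by
  rw [← root_eq h2 (Nat.le_succ _), Function.iterate_succ_apply, bk, h1, if_pos rfl,
    root_eq h2 (h2 s).le]

theorem inv_spec (h3 : ∀ s, (F s).1 = !s.1) (s : Bool × Str) :
    inv F G (inv F G s) = s ∧ (inv F G s = F s ∨ F (inv F G s) = s) := by
  by_cases e : (root F G s).1 = s.1
  · rw [show inv F G s = F s from if_pos e, inv, root_F h1 h2, e, h3, if_neg (by simp), h1]
    exact ⟨rfl, .inl rfl⟩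
  · have a : F (G s) = s := by_contra fun c =>
      e (congrArg _ (Function.iterate_fixed (f := bk F G) (if_neg c) _))
    have b := root_F h1 h2 (G s)
    have c := h3 (G s)
    rw [a] at b c
    rw [show inv F G s = G s from if_neg e, inv, ← b, if_pos (by revert e; rw [c]; simp), a]
    exact ⟨rfl, .inr rfl⟩

omit h1 in
theorem pt_inv (hF : PT F) (hG : PT G) : PT (inv F G) := by
  have h : PT (root F G) := PT.iterate_inv (f := fun _ => bk F G) (by unfold bk; fun_prop)
    (PT.snd PT.id) PT.id (fun a s => s.2.length ≤ a.2.length) (fun _ => le_rfl)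
    (fun a s h => by rcases bk_lt h2 s with e | e; exacts [e.symm ▸ h, by omega])
    (fun a => 4 * a.2.length + 5) (((PB.const 4).mul (ps_length (PT.snd PT.id))).add (PB.const 5))
    fun a s h => by
      have := size_bool s.1
      have := size_bits_le s.2
      rw [size_prod]
      omega
  unfold inv
  fun_prop

omit h1 h2 in
theorem iso_of_emb {B C : Set Str} (h : Emb B C) (h' : Emb C B) : Iso B C := by
  obtain ⟨g, D, a1, a2, a3, a4⟩ := h
  obtain ⟨g', D', b1, b2, b3, b4⟩ := h'
  let F : Bool × Str → Bool × Str := fun s => (!s.1, bif s.1 then g s.2 else g' s.2)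
  let G : Bool × Str → Bool × Str := fun s => (!s.1, bif s.1 then D' s.2 else D s.2)
  have h1 : ∀ s, G (F s) = s := fun ⟨b, x⟩ => by cases b <;> simp [F, G, a3, b3]
  have h2 : ∀ s, s.2.length < (F s).2.length := fun ⟨b, x⟩ => by cases b <;> simp [F, a3, b3]
  have h3 := inv_spec h1 h2 fun _ => rfl
  have h4 : ∀ b x, inv F G (b, x) = (!b, (inv F G (b, x)).2) := fun b x => by
    unfold inv
    split_ifs <;> rfl
  have h5 := pt_inv h2 (by fun_prop) (by fun_prop : PT G)
  refine ⟨⟨fun x => (inv F G (true, x)).2, fun y => (inv F G (false, y)).2,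
    fun x => congrArg Prod.snd (h4 true x ▸ (h3 (true, x)).1 :),
    fun y => congrArg Prod.snd (h4 false y ▸ (h3 (false, y)).1 :)⟩,
    ⟨inFP_of_pt (by simp only [Equiv.coe_fn_mk]; fun_prop), fun x => ?_⟩,
    inFP_of_pt (by simp only [Equiv.coe_fn_symm_mk]; fun_prop)⟩
  change _ ↔ (inv F G (true, x)).2 ∈ C
  rcases (h3 (true, x)).2 with e | e
  · rw [e]; exact a4 x
  · rw [h4] at e
    rw [b4, show g' _ = x from congrArg Prod.snd e]

end Pool.Agent.P.MP_7a71fe_lc.LD
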