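import Pool.Agent.P.MP_7a71fe_lc.AC.Defs

/-!
Reductions whose output bits are polynomials of bounded degree over the field with two elements
in the values of constant-depth formulas printed in polynomial time.
-/

namespace Pool.Agent.P.MP_7a71fe_lc.LD

open Pool.Agent.P.MP_7a71fe_lc.AC

/-- Formulas of depth `D`: literals, and lists of formulas joined by a NAND gate. -/
def Fm : ℕ → Type
  | 0 => ℕ × Bool
  | D + 1 => List (Fm D)

/-- The value of a formula at a string. -/
def ev (x : List Bool) : (D : ℕ) → Fm D → Bool
  | 0, l => x.getD l.1 false == l.2
  | D + 1, F => !List.all F (ev x D)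

/-- The code of a formula. -/
def code : (D : ℕ) → Fm D → List Bool
  | 0, l => l.2 :: l.1.bits
  | D + 1, F => List.foldr (fun a r => pair (code D a) r) [] F

/-- On inputs of each length the output bits are polynomials of bounded degree in the values of
formulas of constant depth that are printed in polynomial time. -/
def PolyAC (f : List Bool → List Bool) : Prop :=
  ∃ (d D : ℕ) (u : List Bool → List Bool), InFP u ∧
    ∀ n : ℕ, ∃ (C : List (Fm D)) (P : List (MvPolynomial ℕ (ZMod 2))),
      u (List.replicate n true) = code (D + 1) C ∧ (∀ p ∈ P, p.totalDegree ≤ d) ∧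
      ∀ x : List Bool, x.length = n → f x = P.map fun p => decide
        (MvPolynomial.eval (fun i => if (C.map (ev x D)).getD i false then 1 else 0) p = 1)

/-- Complete for exponential time under polynomial-time reductions of this kind. -/
def PAComplete (A : Set (List Bool)) : Prop :=
  InEXP A ∧ ∀ L, InEXP L → ∃ f, Red L A f ∧ PolyAC f

end Pool.Agent.P.MP_7a71fe_lc.LD
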