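import Pool.Agent.P.MP_7a71fe_lc.LD.Lin

/-! Differences and the degree of Boolean functions of bit masks. -/

namespace Pool.Agent.P.MP_7a71fe_lc.LD

/-- The difference in direction `a`. -/
def D (a : ℕ) (h : ℕ → Bool) (x : ℕ) : Bool := h (a ^^^ x) ^^ h x

/-- Iterated differences. -/
def Dl : List ℕ → (ℕ → Bool) → ℕ → Bool
  | [], h => h
  | a :: l, h => D a (Dl l h)

/-- All `r`-fold differences vanish. -/
def Deg : ℕ → (ℕ → Bool) → Prop
  | 0, h => ∀ x, h x = false
  | r + 1, h => ∀ a, Deg r (D a h)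

theorem D_comm (a b : ℕ) (h : ℕ → Bool) : D a (D b h) = D b (D a h) := funext fun x => by
  simp only [D, Nat.xor_left_comm a b]
  cases h (b ^^^ (a ^^^ x)) <;> cases h (a ^^^ x) <;> cases h (b ^^^ x) <;> cases h x <;> rfl

theorem D_self (a : ℕ) (h : ℕ → Bool) (x : ℕ) : D a (D a h) x = false := by
  simp only [D, Nat.xor_xor_cancel_left]
  cases h (a ^^^ x) <;> cases h x <;> rfl

theorem D_zero (h : ℕ → Bool) (x : ℕ) : D 0 h x = false := by simp [D]

theorem Dl_D (l : List ℕ) (a : ℕ) (h : ℕ → Bool) : Dl l (D a h) = Dl (a :: l) h := by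
  induction l with
  | nil => rfl
  | cons b l ih => rw [Dl, ih, Dl, Dl, Dl, D_comm]

theorem Dl_perm {l l' : List ℕ} (e : l.Perm l') (h : ℕ → Bool) : Dl l h = Dl l' h := by
  induction e with
  | nil => rfl
  | cons a _ ih => rw [Dl, Dl, ih]
  | swap a b l => exact D_comm _ _ _
  | trans _ _ i j => exact i.trans j

theorem deg_iff {r : ℕ} {h : ℕ → Bool} :
    Deg r h ↔ ∀ l : List ℕ, l.length = r → ∀ x, Dl l h x = false := by
  induction r generalizing h with
  | zero => simp [Deg, Dl]
  | succ r ih =>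
    simp only [Deg, ih, Dl_D]
    refine ⟨fun e l hl => ?_, fun e a l hl => e _ (by simp [hl])⟩
    cases l with
    | nil => simp at hl
    | cons a l => exact e a l (by simpa using hl)

theorem deg_false {r : ℕ} {h : ℕ → Bool} (e : ∀ x, h x = false) : Deg r h := by
  induction r generalizing h with
  | zero => exact e
  | succ r ih => exact fun a => ih fun x => by simp [D, e]

theorem Deg.succ {r : ℕ} {h : ℕ → Bool} (e : Deg r h) : Deg (r + 1) h := by
  induction r generalizing h with
  | zero => exact deg_false e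
  | succ r ih => exact fun a => ih (e a)

theorem Deg.mono {r s : ℕ} {h : ℕ → Bool} (e : Deg r h) (l : r ≤ s) : Deg s h := by
  induction l with
  | refl => exact e
  | step _ ih => exact ih.succ

theorem Deg.xor {r : ℕ} {h g : ℕ → Bool} (e : Deg r h) (e' : Deg r g) :
    Deg r fun x => h x ^^ g x := by
  induction r generalizing h g with
  | zero => exact fun x => by simp [e x, e' x]
  | succ r ih =>
    intro a
    convert ih (e a) (e' a) using 2 with x
    simp only [D]
    cases h (a ^^^ x) <;> cases g (a ^^^ x) <;> cases h x <;> cases g x <;> rfl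

theorem deg_const (b : Bool) : Deg 1 fun _ => b := fun a x => by simp [D]

theorem Deg.const {h : ℕ → Bool} (e : Deg 1 h) (x : ℕ) : h x = h 0 := by
  simpa [D] using e x 0

theorem Af.deg {h : ℕ → Bool} (e : Af h) : Deg 2 h := fun a => by
  convert deg_const (h a) using 2 with x
  simp [D, e _ _]

/-- Affine maps. -/
def Aff (φ : ℕ → ℕ) : Prop := ∀ a b, φ (a ^^^ b) = (φ a ^^^ φ 0) ^^^ φ b

theorem Ad.aff {φ : ℕ → ℕ} (h : Ad φ) : Aff φ := fun a b => by rw [h.zero, h, Nat.xor_zero]

theorem aff_shift (c : ℕ) : Aff (c ^^^ ·) := fun a b => by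
  simp [Nat.xor_left_comm]

theorem Dl_comp {φ : ℕ → ℕ} (hφ : Aff φ) (l : List ℕ) (h : ℕ → Bool) (x : ℕ) :
    Dl l (fun t => h (φ t)) x = Dl (l.map fun a => φ a ^^^ φ 0) h (φ x) := by
  induction l generalizing x with
  | nil => rfl
  | cons a l ih => simp only [Dl, List.map_cons, D, ih, hφ _ _]

theorem Deg.comp {r : ℕ} {h : ℕ → Bool} (e : Deg r h) {φ : ℕ → ℕ} (hφ : Aff φ) :
    Deg r fun t => h (φ t) :=
  deg_iff.2 fun l hl x => by rw [Dl_comp hφ, deg_iff.1 e _ (by simpa using hl)]

theorem Dl_shift (c : ℕ) (l : List ℕ) (h : ℕ → Bool) :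
    Dl l (fun t => h (c ^^^ t)) 0 = Dl l h c := by
  rw [Dl_comp (aff_shift c)]
  simp [Nat.xor_comm c]

theorem Deg.and {n a b : ℕ} {h g : ℕ → Bool} (e : Deg a h) (e' : Deg b g) (l : a + b ≤ n + 1) :
    Deg n fun x => h x && g x := by
  induction n generalizing a b h g with
  | zero =>
    intro x
    rcases (by omega : a = 0 ∨ b = 0) with rfl | rfl
    · simp [e x]
    · simp [e' x]
  | succ n ih =>
    rcases a with _ | a
    · exact deg_false fun x => by simp [e x]
    rcases b with _ | b
    · exact deg_false fun x => by simp [e' x]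
    intro c
    convert (ih (e c) (e'.comp (aff_shift c)) (by omega)).xor (ih e (e' c) (by omega))
      using 2 with x
    simp only [D]
    cases h (c ^^^ x) <;> cases g (c ^^^ x) <;> cases h x <;> cases g x <;> rfl

/-- The top form does not depend on the base point. -/
theorem Deg.top {r : ℕ} {h : ℕ → Bool} (e : Deg (r + 1) h) {l : List ℕ} (hl : l.length = r)
    (x : ℕ) : Dl l h x = Dl l h 0 := by
  simpa [Dl, D] using deg_iff.1 e (x :: l) (by simp [hl]) 0

theorem Deg.af {r : ℕ} {h : ℕ → Bool} (e : Deg (r + 2) h) {l : List ℕ} (hl : l.length = r) :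
    Af fun a => Dl (a :: l) h 0 := fun a b => by
  have := e.top (l := a :: l) (by simp [hl]) b
  simp only [Dl, D, Nat.xor_zero] at this ⊢
  revert this
  cases Dl l h (a ^^^ b) <;> cases Dl l h a <;> cases Dl l h b <;> cases Dl l h 0 <;> simp

/-- The degree drops on a span on whose generators the top form vanishes. -/
theorem Deg.drop {r : ℕ} {h : ℕ → Bool} (e : Deg (r + 2) h) {Y : List ℕ}
    (hY : ∀ l : List ℕ, l.length = r + 1 → (∀ a ∈ l, a ∈ Y) → Dl l h 0 = false) :
    Deg (r + 1) fun t => h (comb Y t) := by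
  have k : ∀ l l' : List ℕ, l.length + l'.length = r + 1 → (∀ a ∈ l, Sp Y a) → (∀ a ∈ l', a ∈ Y) →
      Dl (l ++ l') h 0 = false := fun l => by
    induction l with
    | nil => exact fun l' a _ => hY l' (by simpa using a)
    | cons a l ih =>
      intro l' h1 h2 h3
      rw [List.forall_mem_cons] at h2
      rw [List.length_cons] at h1
      refine Sp.rec (motive := fun a _ => Dl (a :: (l ++ l')) h 0 = false) (D_zero _ _)
        (fun {y x} hy _ i => ?_) h2.1
      have := e.af (l := l ++ l') (by simp; omega) y x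
      dsimp only at this
      rw [this, i, Dl_perm List.perm_middle.symm,
        ih _ (by simp; omega) h2.2 (List.forall_mem_cons.2 ⟨hy, h3⟩)]
      rfl
  refine deg_iff.2 fun l hl x => ?_
  rw [Dl_comp (Ad.aff (comb_xor Y)), e.top (by simpa using hl)]
  simpa using k (l.map (comb Y)) [] (by simpa using hl) (by simp [sp_comb]) (by simp)

/-- Sums of at most `r` members of `Y`. -/
def sums : ℕ → List ℕ → List ℕ
  | 0, _ => [0]
  | r + 1, Y => (0 :: Y).flatMap fun y => (sums r Y).map (y ^^^ ·)

theorem mem_sums {r x y : ℕ} {Y : List ℕ} (hy : y ∈ 0 :: Y) (hx : x ∈ sums r Y) :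
    y ^^^ x ∈ sums (r + 1) Y := List.mem_flatMap.2 ⟨y, hy, List.mem_map_of_mem hx⟩

theorem zero_mem_sums (r : ℕ) (Y : List ℕ) : 0 ∈ sums r Y := by
  induction r with
  | zero => simp [sums]
  | succ r ih => exact mem_sums (y := 0) (by simp) ih

theorem sp_cons {x : ℕ} {Y : List ℕ} (h : x ∈ 0 :: Y) : Sp Y x := by
  rcases List.mem_cons.1 h with rfl | h
  exacts [.zero, .mem h]

theorem sp_sums {r x : ℕ} {Y : List ℕ} (h : x ∈ sums r Y) : Sp Y x := by
  induction r generalizing x with
  | zero => exact List.mem_singleton.1 h ▸ .zero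
  | succ r ih =>
    obtain ⟨y, hy, h⟩ := List.mem_flatMap.1 h
    obtain ⟨z, hz, rfl⟩ := List.mem_map.1 h
    exact (sp_cons hy).xor (ih hz)

theorem Dl_ind {P : ((ℕ → Bool) → Bool) → Prop} {r : ℕ} {Y : List ℕ}
    (hx : ∀ F G, P F → P G → P fun h => F h ^^ G h) (he : ∀ x ∈ sums r Y, P fun h => h x)
    {l : List ℕ} (hl : l.length ≤ r) (hY : ∀ a ∈ l, a ∈ Y) : P fun h => Dl l h 0 := by
  suffices ∀ s, l.length + s = r → ∀ x ∈ sums s Y, P fun h => Dl l h x from
    this _ (Nat.add_sub_cancel' hl) _ (zero_mem_sums _ _)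
  clear hl
  induction l with
  | nil => intro s e; rw [List.length_nil, zero_add] at e; exact e ▸ he
  | cons a l ih =>
    intro s e x h
    rw [List.forall_mem_cons] at hY
    have := ih hY.2 (s + 1) (by simp at e; omega)
    exact hx _ _ (this _ (mem_sums (by simp [hY.1]) h))
      (this _ (by simpa using mem_sums (y := 0) (by simp) h))

/-- Interpolation. -/
theorem interp {d t : ℕ} {Y : List ℕ} (ht : Sp Y t) : ∃ μ < 2 ^ (sums d Y).length,
    ∀ h, Deg (d + 1) h → S (sums d Y) h μ = h t := by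
  let P : ((ℕ → Bool) → Bool) → Prop := fun F => ∃ μ < 2 ^ (sums d Y).length,
    ∀ h, Deg (d + 1) h → S (sums d Y) h μ = F h
  have hx : ∀ F G, P F → P G → P fun h => F h ^^ G h := fun F G ⟨a, h1, h2⟩ ⟨b, h3, h4⟩ =>
    ⟨_, Nat.xor_lt_two_pow h1 h3, fun h e => by rw [S_xor, h2 h e, h4 h e]⟩
  suffices ∀ l : List ℕ, (∀ a ∈ l, a ∈ Y) → P fun h => Dl l h t from this [] (by simp)
  induction ht with
  | zero =>
    intro l hl
    rcases le_or_gt l.length d with e | e
    · refine Dl_ind hx (fun x h => ?_) e hl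
      obtain ⟨j, hj, rfl⟩ := List.getElem_of_mem h
      exact ⟨_, Nat.pow_lt_pow_right one_lt_two hj, fun h _ => by
        rw [S_pow h hj, List.getD_eq_getElem _ _ hj]⟩
    · exact ⟨0, by positivity, fun h a => by simp [deg_iff.1 (a.mono e) l rfl]⟩
  | @step y x hy _ ih =>
    intro l hl
    convert hx _ _ (ih (y :: l) (List.forall_mem_cons.2 ⟨hy, hl⟩)) (ih l hl) using 2 with h
    simp [Dl, D]

theorem deg_poly {d : ℕ} {p : MvPolynomial ℕ (ZMod 2)} (hp : p.totalDegree ≤ d)
    {v : ℕ → ℕ → Bool} (hv : ∀ i, Deg 2 fun x => v x i) :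
    Deg (d + 1) fun x => decide (MvPolynomial.eval (fun i => if v x i then 1 else 0) p = 1) := by
  let Z : ℕ → (ℕ → ZMod 2) → Prop := fun r h => Deg (r + 1) fun x => decide (h x = 1)
  have h0 : ∀ c, Z 0 fun _ => c := fun c => deg_const _
  have h1 : ∀ h g, Z d h → Z d g → Z d fun x => h x + g x := fun h g e e' => by
    convert e.xor e' using 2 with x
    exact (by decide : ∀ a b : ZMod 2, decide (a + b = 1) = (decide (a = 1) ^^ decide (b = 1))) _ _
  have h2 : ∀ a b h g, Z a h → Z b g → Z (a + b) fun x => h x * g x := fun a b h g e e' => by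
    convert e.and e' (n := a + b + 1) (by omega) using 2 with x
    exact (by decide : ∀ a b : ZMod 2, decide (a * b = 1) = (decide (a = 1) && decide (b = 1))) _ _
  have h3 : ∀ i n, Z n fun x => (if v x i then 1 else 0) ^ n := fun i n => by
    induction n with
    | zero => simpa using h0 1
    | succ n ih =>
      simp only [pow_succ]
      refine h2 _ _ _ _ ih ?_
      convert hv i using 2 with x
      exact (by decide : ∀ b : Bool, decide ((if b then 1 else 0 : ZMod 2) = 1) = b) _
  have h4 : ∀ (m : ℕ →₀ ℕ) (s : Finset ℕ), Z (∑ i ∈ s, m i) fun x =>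
      ∏ i ∈ s, (if v x i then 1 else 0) ^ m i := fun m s => by
    induction s using Finset.induction_on with
    | empty => simpa using h0 1
    | insert i s hi ih =>
      simp only [Finset.sum_insert hi, Finset.prod_insert hi]
      exact h2 _ _ _ _ (h3 i _) ih
  have h5 : ∀ s ⊆ p.support, Z d fun x => ∑ m ∈ s, p.coeff m *
      ∏ i ∈ m.support, (if v x i then 1 else 0) ^ m i := fun s => by
    induction s using Finset.induction_on with
    | empty => exact fun _ => deg_false fun x => by simp
    | insert m s hm ih =>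
      intro e
      rw [Finset.insert_subset_iff] at e
      simp only [Finset.sum_insert hm]
      refine h1 _ _ ((h2 _ _ _ _ (h0 _) (h4 m _)).mono ?_) (ih e.2)
      simpa [Finsupp.sum] using (MvPolynomial.le_totalDegree e.1).trans hp
  simp only [MvPolynomial.eval_eq]
  exact h5 _ subset_rfl

end Pool.Agent.P.MP_7a71fe_lc.LD
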