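import Pool.Agent.P.MP_7a71fe_lc.LD.Sw
import Pool.Agent.P.MP_7a71fe_lc.LD.Deg
import Pool.Agent.P.MP_7a71fe_lc.LD.DefsC

/-! A restriction under which constant-depth formulas depend on few variables. -/

namespace Pool.Agent.P.MP_7a71fe_lc.LD

open Pool.Agent.Lib.Helper47 Pool.Agent.P.MP_7a71fe_lc.AC

/-- The value of a coded formula. -/
def evc (y : ℕ → Bool) : ℕ → Str → Bool
  | 0, C => y (msb C.tail.reverse 0) == C.headD false
  | D + 1, C => !(blocks C).all (evc y D)

theorem blocks_code (D : ℕ) (F : List (Fm D)) : blocks (code (D + 1) F) = F.map (code D) := by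
  rw [← blocks_flatten (F.map _)]
  refine congrArg _ ?_
  induction F with
  | nil => rfl
  | cons a F ih =>
    rw [List.map_cons, List.map_cons, List.flatten_cons, ← ih, delimit_eq]
    simp [code, pair]

theorem evc_code (x : Str) (D : ℕ) (a : Fm D) :
    evc (x.getD · false) D (code D a) = ev x D a := by
  induction D with
  | zero => simp [evc, code, ev, msb_reverse_bits]
  | succ D ih =>
    rw [evc, blocks_code D a]
    exact congrArg _ (List.all_map.trans (congrArg _ (funext ih)))

/-- The total size of a list of strings. -/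
def tot (Cs : List Str) : ℕ := (Cs.map (·.length + 1)).sum

theorem tot_blocks (C : Str) : tot (blocks C) ≤ C.length := by
  suffices tot (blocks C) + (C.foldl blockStep (false, [], [])).2.1.length ≤ C.length by omega
  unfold blocks
  induction C using List.reverseRecOn with
  | nil => simp [tot]
  | append_singleton C b ih =>
    rw [List.foldl_append, List.length_append]
    generalize C.foldl blockStep (false, [], []) = s at *
    obtain ⟨_ | _, s⟩ := s <;> cases b <;> simp [blockStep, tot] at ih ⊢ <;> omega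

theorem tot_flatMap (Cs : List Str) : tot (Cs.flatMap blocks) ≤ tot Cs := by
  induction Cs with
  | nil => rfl
  | cons C Cs ih =>
    have := tot_blocks C
    simp [tot] at *
    omega

theorem length_le_tot (Cs : List Str) : Cs.length ≤ tot Cs := by
  have := List.card_nsmul_le_sum (Cs.map (·.length + 1)) 1 (by simp)
  rwa [List.length_map, smul_eq_mul, mul_one] at this

/-- The terms of the negation of a function of few variables. -/
def neg (j : ℕ) (r : Rs) (S : List ℕ) (g : (ℕ → Bool) → Bool) : List Tm :=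
  ((List.range (2 ^ j)).filter fun m => !g (yv (r.1.filter (· ∈ S)) m r.2)).map fun m =>
    (r.1.filter (· ∈ S)).map fun i => (i, m.testBit ((r.1.filter (· ∈ S)).idxOf i))

theorem neg_spec {j : ℕ} {r : Rs} {S : List ℕ} {g : (ℕ → Bool) → Bool} (hr : Wf r)
    (hS : S.length ≤ j) (hg : Dep r S g) :
    Ok r.1 j (neg j r S g) ∧ ∀ y, Dom r y → (neg j r S g).any (sat y) = !g y := by
  have h1 := List.countP_eq_length_filter.ge.trans
    (((cnt_le (B := S) hr.1).trans List.countP_le_length).trans hS)
  have h2 : ∀ i, i ∈ r.1.filter (· ∈ S) ↔ i ∈ r.1 ∧ i ∈ S := by simp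
  have h3 := hr.1.filter (· ∈ S)
  rw [neg]
  generalize r.1.filter (· ∈ S) = B at *
  refine ⟨List.forall_mem_map.2 fun m _ => ⟨by simpa [Function.comp_def] using h3, by simpa using h1,
    List.forall_mem_map.2 fun i hi => ((h2 i).1 hi).1⟩, fun y hy => ?_⟩
  have h4 : ∀ m, (∀ i ∈ B, y i = m.testBit (B.idxOf i)) → g (yv B m r.2) = g y := fun m h =>
    hg _ _ (fun i hi => if_neg fun c => hi ((h2 i).1 c).1) hy fun i hi => by
      rw [yv]
      split_ifs with a
      exacts [(h i a).symm, (hy i fun c => a ((h2 i).2 ⟨c, hi⟩)).symm]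
  rw [Bool.eq_iff_iff]
  simp only [List.any_map, List.any_filter, List.any_eq_true, Function.comp, sat, List.all_map,
    Bool.and_eq_true, List.all_eq_true, beq_iff_eq, List.mem_range]
  exact ⟨fun ⟨m, _, a, b⟩ => h4 m b ▸ a, fun a => ⟨_, msk_lt h1 y,
    h4 _ (fun i hi => (msk_bit hi y).symm) ▸ a, fun i hi => (msk_bit hi y).symm⟩⟩

/-- The number of relevant variables and the exponent of the loss. -/
def JE (c : ℕ) : ℕ → ℕ × ℕ
  | 0 => (1, 1)
  | D + 1 => (Jw (JE c D).1 ((JE c D).2 * c), 4 ^ (JE c D).1 * (JE c D).2)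

/-- The terms of a formula whose parts depend on few variables. -/
def dn (j D : ℕ) (o : Rs × (Str → List ℕ)) (C : Str) : List Tm :=
  (blocks C).flatMap fun a => neg j o.1 (o.2 a) (evc · D a)

/-- The restriction and the relevant variables. -/
def cc (c : ℕ) (r : Rs) : ℕ → ℕ → List Str → Rs × (Str → List ℕ)
  | 0, _, _ => (r, fun C => [msb C.tail.reverse 0])
  | D + 1, n, Cs =>
    let o := cc c r D (n ^ 4 ^ (JE c D).1) (Cs.flatMap blocks)
    (sw n (JE c D).1 ((JE c D).2 * c) o.1 (Cs.map (dn (JE c D).1 D o)),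
      fun C => sp n (JE c D).1 ((JE c D).2 * c) o.1 (Cs.map (dn (JE c D).1 D o))
        (dn (JE c D).1 D o C))

theorem cc_spec (c D : ℕ) : ∃ N, ∀ n, N ≤ n → ∀ r Cs, Wf r → n ^ (JE c D).2 ≤ r.1.length →
    tot Cs ≤ (n ^ (JE c D).2) ^ c → Wf (cc c r D n Cs).1 ∧ n ≤ (cc c r D n Cs).1.1.length ∧
      (∀ y, Dom (cc c r D n Cs).1 y → Dom r y) ∧ ∀ C ∈ Cs,
        ((cc c r D n Cs).2 C).length ≤ (JE c D).1 ∧
          Dep (cc c r D n Cs).1 ((cc c r D n Cs).2 C) (evc · D C) := by
  induction D with
  | zero => exact ⟨0, fun n _ r Cs hr h _ => ⟨hr, (pow_one n).ge.trans h, fun _ => id, fun C _ =>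
      ⟨le_rfl, fun y z _ _ e => congrArg (· == _) (e _ (.head _))⟩⟩⟩
  | succ D ih =>
    obtain ⟨N, ih⟩ := ih
    obtain ⟨N', h⟩ := sw_spec (JE c D).1 ((JE c D).2 * c)
    refine ⟨N + N', fun n hn r Cs hr h1 h2 => ?_⟩
    have a : n ≤ n ^ 4 ^ (JE c D).1 := Nat.le_self_pow (by positivity) n
    simp only [JE, pow_mul] at h1 h2
    obtain ⟨a1, a2, a3, a4⟩ := ih _ (by omega) r _ hr h1 ((tot_flatMap Cs).trans h2)
    simp only [cc, JE]
    generalize cc c r D (n ^ 4 ^ (JE c D).1) (Cs.flatMap blocks) = o at *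
    have a5 := fun C (hC : C ∈ Cs) a (ha : a ∈ blocks C) =>
      have := a4 a (List.mem_flatMap.2 ⟨C, hC, ha⟩)
      neg_spec a1 this.1 this.2
    obtain ⟨b1, b2, b3, b4⟩ := h n (by omega) o.1 (Cs.map (dn (JE c D).1 D o)) a1 a2
      (by rw [List.length_map, pow_mul]; exact (length_le_tot Cs).trans h2)
      (List.forall_mem_map.2 fun C hC => List.forall_mem_flatMap.2 fun a ha => (a5 C hC a ha).1)
    refine ⟨b1, b2, fun y hy => a3 y (b3 y hy), fun C hC => ?_⟩
    obtain ⟨b5, b6⟩ := b4 _ (List.mem_map_of_mem hC)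
    have b7 : ∀ y, Dom o.1 y → evc y (D + 1) C = (dn (JE c D).1 D o C).any (sat y) := fun y hy => by
      rw [evc, dn, List.any_flatMap, List.not_all_eq_any_not, Bool.eq_iff_iff, List.any_eq_true,
        List.any_eq_true]
      exact exists_congr fun a => and_congr_right fun ha => by rw [(a5 C hC a ha).2 y hy]
    exact ⟨b5, fun y z hy hz e => (b7 y (b3 y hy)).trans ((b6 y z hy hz e).trans
      (b7 z (b3 z hz)).symm)⟩

theorem deg_dep {v : ℕ → ℕ → Bool} (hv : ∀ i, Deg 2 fun u => v u i) {S : List ℕ} {h : ℕ → Bool}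
    (e : ∀ u u', (∀ i ∈ S, v u i = v u' i) → h u = h u') : Deg (S.length + 1) h := by
  classical
  induction S generalizing h with
  | nil => exact funext (fun u => e u 0 (by simp)) ▸ deg_const (h 0)
  | cons i S ih =>
    have a := fun b => ih (h := fun u => decide (∃ u', v u' i = b ∧ (∀ i ∈ S, v u' i = v u i) ∧
      h u' = true)) fun u u' c => by simp +contextual [c]
    have b : ∀ u, (∃ u', v u' i = v u i ∧ (∀ i ∈ S, v u' i = v u i) ∧ h u' = true) ↔ h u = true :=
      fun u => ⟨fun ⟨u', c1, c2, c3⟩ => e u' u (List.forall_mem_cons.2 ⟨c1, c2⟩) ▸ c3,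
        fun c => ⟨u, rfl, fun _ _ => rfl, c⟩⟩
    rw [List.length_cons]
    convert ((hv i).and (a true) (n := S.length + 1 + 1) (by omega)).xor
      (((hv i).xor (deg_const true).succ).and (a false) (by omega)) using 2 with u
    have := b u
    cases c : v u i <;> simp only [c] at this <;> simp [this]

theorem deg_poly' {d j : ℕ} {p : MvPolynomial ℕ (ZMod 2)} (hp : p.totalDegree ≤ d)
    {v : ℕ → ℕ → Bool} (hv : ∀ i, Deg (j + 1) fun x => v x i) :
    Deg (d * j + 1) fun x => decide (MvPolynomial.eval (fun i => if v x i then 1 else 0) p = 1) := by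
  let Z : ℕ → (ℕ → ZMod 2) → Prop := fun r h => Deg (r * j + 1) fun x => decide (h x = 1)
  have h0 : ∀ c, Z 0 fun _ => c := fun c => (deg_const _).mono (by omega)
  have h1 : ∀ h g, Z d h → Z d g → Z d fun x => h x + g x := fun h g e e' => by
    convert e.xor e' using 2 with x
    exact (by decide : ∀ a b : ZMod 2, decide (a + b = 1) = (decide (a = 1) ^^ decide (b = 1))) _ _
  have h2 : ∀ a b h g, Z a h → Z b g → Z (a + b) fun x => h x * g x := fun a b h g e e' => by
    convert e.and e' (n := (a + b) * j + 1) (by rw [add_mul]; omega) using 2 with x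
    exact (by decide : ∀ a b : ZMod 2, decide (a * b = 1) = (decide (a = 1) && decide (b = 1))) _ _
  have h3 : ∀ i n, Z n fun x => (if v x i then 1 else 0) ^ n := fun i n => by
    induction n with
    | zero => simpa using h0 1
    | succ n ih =>
      simp only [pow_succ]
      refine h2 _ _ _ _ ih (Deg.mono ?_ (show j + 1 ≤ _ by omega))
      convert hv i using 2 with x
      exact (by decide : ∀ b : Bool, decide ((if b then 1 else 0 : ZMod 2) = 1) = b) _
  have h4 : ∀ (m : ℕ →₀ ℕ) (s : Finset ℕ), Z (∑ i ∈ s, m i) fun x =>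
      ∏ i ∈ s, (if v x i then 1 else 0) ^ m i := fun m s => by
    induction s using Finset.induction_on with
    | empty => simpa using h0 1
    | insert i s hi ih =>
      simp only [Finset.sum_insert hi, Finset.prod_insert hi]
      exact h2 _ _ _ _ (h3 i _) ih
  have h5 : ∀ s ⊆ p.support, Z d fun x => ∑ m ∈ s, p.coeff m *
      ∏ i ∈ m.support, (if v x i then 1 else 0) ^ m i := fun s => by
    induction s using Finset.induction_on with
    | empty => exact fun _ => deg_false fun x => by simp
    | insert m s hm ih =>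
      intro e
      rw [Finset.insert_subset_iff] at e
      simp only [Finset.sum_insert hm]
      refine h1 _ _ ((h2 _ _ _ _ (h0 _) (h4 m _)).mono (Nat.succ_le_succ
        (Nat.mul_le_mul_right _ ?_))) (ih e.2)
      simpa [Finsupp.sum] using (MvPolynomial.le_totalDegree e.1).trans hp
  simp only [MvPolynomial.eval_eq]
  exact h5 _ subset_rfl

end Pool.Agent.P.MP_7a71fe_lc.LD
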