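import Pool.Agent.P.MP_7a71fe_lc.LD.Cst

/-! An affine subspace on which a map of low degree is invertible, or a collision. -/

namespace Pool.Agent.P.MP_7a71fe_lc.LD

/-- An output position, an input position and two vectors. -/
abbrev Cd : Type := ℕ × ℕ × ℕ × ℕ

/-- The vector added to the point with index `t`. -/
def mv (t : ℕ) (c : Cd) : ℕ := c.2.2.1 ^^^ bif t.testBit c.2.1 then c.2.2.2 else 0

/-- The affine map. -/
def pnt (C : List Cd) (t : ℕ) : ℕ := (C.map (mv t)).foldl (· ^^^ ·) 0

theorem pnt_snoc (C : List Cd) (c : Cd) (t : ℕ) : pnt (C ++ [c]) t = pnt C t ^^^ mv t c := by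
  simp [pnt]

theorem aff_pnt (C : List Cd) : Aff (pnt C) := fun a b => by
  induction C using List.reverseRecOn with
  | nil => simp [pnt]
  | append_singleton C c ih =>
    simp only [pnt_snoc, ih, mv, Nat.testBit_xor, Nat.zero_testBit]
    cases a.testBit c.2.1 <;> cases b.testBit c.2.1 <;>
      simp [Nat.xor_assoc, Nat.xor_left_comm, Nat.xor_comm]

/-- Change of coordinates. -/
def mp (Y : List ℕ) (c : Cd) : Cd := (c.1, c.2.1, comb Y c.2.2.1, comb Y c.2.2.2)

theorem pnt_map (Y : List ℕ) (C : List Cd) (t : ℕ) : pnt (C.map (mp Y)) t = comb Y (pnt C t) := by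
  induction C using List.reverseRecOn with
  | nil => exact (comb_zero Y).symm
  | append_singleton C c ih =>
    simp only [List.map_append, List.map_singleton, pnt_snoc, ih, comb_xor, mv, mp]
    cases t.testBit c.2.1 <;> simp

variable (r : ℕ) (f : ℕ → ℕ → Bool) (M k n : ℕ) (T : List ℕ) (C : List Cd)

/-- Generators of the relations. -/
def rel : List ℕ := kers (fun c : Cd => S T fun s => f c.1 (pnt C s)) C (units T.length)

/-- Directions that do not change the recorded values. -/
def sub : List ℕ :=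
  cst (r + 1) (fun (p : Cd × ℕ) y => f p.1.1 (pnt C p.2 ^^^ y)) (C ×ˢ T) (T.length * T.length) n

def cands (Y : List ℕ) : List Cd := List.range M ×ˢ List.range k ×ˢ sums r Y ×ˢ (0 :: Y)

def imp (c : Cd) : Bool := (rel f T C).any (S T fun s => f c.1 (pnt (C ++ [c]) s))

def step : List Cd := C ++ ((cands r M k (sub r f n T C)).find? (imp f T C)).toList

def loop : List Cd := (step r f M k n T)^[T.length + 1] []

/-- The number of coordinates used. -/
def Nm (c : ℕ) : ℕ → ℕ
  | 0 => 1
  | r + 1 => Nc (r + 1) c (Nm c r)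

/-- The affine map, or a collision. -/
def core : ℕ → (ℕ → ℕ → Bool) → List Cd × ℕ
  | 0, _ => ([], 1)
  | r + 1, f =>
    let n := Nm (T.length * T.length) r
    let C := loop r f M k n T
    let Y := sub r f n T C
    let o := core r fun j x => f j (comb Y x)
    bif (rel f T C).all (comb T · == 0) then (C, 0) else (o.1.map (mp Y), comb Y o.2)

/-- The index is a linear function of the values. -/
def Good : Prop := ∀ μ, (∀ j < M, S T (fun s => f j (pnt C s)) μ = false) → comb T μ = 0

/-- Decoding. -/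
def dcd (y : ℕ → Bool) : ℕ :=
  comb T (((kers (fun j μ => S T (fun s => f j (pnt C s)) μ ^^ (μ.testBit T.length && y j))
    (List.range M) (units (T.length + 1))).find? (·.testBit T.length)).getD 0)

variable {r f M k n T C}

theorem mem_cands {Y : List ℕ} {c : Cd} : c ∈ cands r M k Y ↔
    c.1 < M ∧ c.2.1 < k ∧ c.2.2.1 ∈ sums r Y ∧ c.2.2.2 ∈ 0 :: Y := by
  obtain ⟨j, l, a, b⟩ := c
  simp only [cands, List.mem_product, List.mem_range]

theorem sub_spec (hf : ∀ j < M, Deg (r + 2) (f j)) (h1 : C.length ≤ T.length)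
    (h2 : ∀ c ∈ C, c.1 < M) : Ind (sub r f n T C) ∧ ∀ c ∈ C, ∀ s ∈ T, ∀ y,
      Sp (sub r f n T C) y → f c.1 (pnt C s ^^^ y) = f c.1 (pnt C s) := by
  obtain ⟨h3, h4⟩ := cst_spec (g := fun (p : Cd × ℕ) y => f p.1.1 (pnt C p.2 ^^^ y))
    (I := C ×ˢ T) (c := T.length * T.length) (n := n) (fun ⟨c, s⟩ hp =>
      (hf _ (h2 c (List.mem_product.1 hp).1)).comp (aff_shift _))
    (by rw [List.length_product]; exact Nat.mul_le_mul_right _ h1)
  exact ⟨h3, fun c hc s hs y hy => by simpa using h4 (c, s) (List.mem_product.2 ⟨hc, hs⟩) y hy⟩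

theorem kers_congr {ι : Type} {ψ φ : ι → ℕ → Bool} {I : List ι} (h : ∀ i ∈ I, ψ i = φ i)
    (R : List ℕ) : kers ψ I R = kers φ I R := List.foldl_ext _ _ _ fun R i hi => by rw [h i hi]

theorem loop_spec (hf : ∀ j < M, Deg (r + 2) (f j)) :
    (loop r f M k n T).length ≤ T.length ∧ (∀ c ∈ loop r f M k n T, c.1 < M) ∧
      ∀ c ∈ cands r M k (sub r f n T (loop r f M k n T)), imp f T (loop r f M k n T) c = false := by
  have : ∀ i C, C = (step r f M k n T)^[i] [] →
      C.length + (rel f T C).countP (· != 0) ≤ T.length ∧ (∀ c ∈ C, c.1 < M) ∧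
      (C.length = i ∨ (cands r M k (sub r f n T C)).find? (imp f T C) = none) := fun i => by
    induction i with
    | zero =>
      rintro _ rfl
      exact ⟨(zero_add _).trans_le (List.countP_le_length.trans (length_units _).le), by simp⟩
    | succ i ih =>
      rintro _ rfl
      rw [Function.iterate_succ_apply']
      obtain ⟨h1, h2, h3⟩ := ih _ rfl
      generalize (step r f M k n T)^[i] [] = C at *
      rw [step]
      cases e : (cands r M k (sub r f n T C)).find? (imp f T C) with
      | none => simpa [h1, e] using h2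
      | some c =>
        obtain ⟨h4, -, h5, h6⟩ := mem_cands.1 (List.mem_of_find?_eq_some e)
        obtain ⟨μ, h7, h8⟩ := List.any_eq_true.1 (List.find?_some e :)
        have h9 : rel f T (C ++ [c]) = elim (S T fun s => f c.1 (pnt (C ++ [c]) s)) (rel f T C) := by
          rw [rel, kers, List.foldl_append]
          refine congrArg _ (kers_congr (fun c' hc => funext (S_congr fun s hs => ?_)) _)
          rw [pnt_snoc]
          refine (sub_spec hf (by omega) h2).2 c' hc s hs _ ((sp_sums h5).xor ?_)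
          cases s.testBit c.2.1
          exacts [.zero, sp_cons h6]
        have := elim_count (S_xor T _) h7 h8
        simp only [Option.toList_some, h9, List.length_append, List.length_singleton,
          List.forall_mem_append, List.forall_mem_singleton]
        exact ⟨by omega, ⟨h2, h4⟩, .inl (by simpa [e] using h3)⟩
  obtain ⟨h1, h2, h3⟩ := this _ _ (rfl : loop r f M k n T = _)
  exact ⟨by omega, h2, by simpa using h3.resolve_left (by omega)⟩

theorem Sp.ad {Y : List ℕ} {x : ℕ} {φ : ℕ → ℕ} (h : Sp Y x) (hφ : Ad φ)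
    (e : ∀ y ∈ Y, φ y = 0) : φ x = 0 := by
  induction h with
  | zero => exact hφ.zero
  | step hy _ ih => rw [hφ, e _ hy, ih]; rfl

theorem stuck {Y : List ℕ} {μ j : ℕ} (hf : Deg (r + 2) (f j)) (hj : j < M)
    (hT : ∀ t ∈ T, t < 2 ^ k) (h : ∀ c ∈ cands r M k Y, imp f T C c = false)
    (h1 : μ ∈ rel f T C) (h2 : comb T μ ≠ 0) : Deg (r + 1) fun x => f j (comb Y x) := by
  obtain ⟨l, hl⟩ := Nat.exists_testBit_of_ne_zero h2
  have h3 : l < k := lt_of_not_ge fun c => by
    rw [Nat.testBit_lt_two_pow (((sp_comb T μ).lt hT).trans_le (Nat.pow_le_pow_right two_pos c))]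
      at hl
    cases hl
  refine hf.drop fun L h4 h5 => ?_
  obtain ⟨b, L, rfl⟩ := List.exists_cons_of_length_eq_add_one h4
  rw [List.forall_mem_cons] at h5
  have h6 := Dl_ind (r := r) (Y := Y) (l := L) (P := fun F => S T (fun s => s.testBit l &&
    F fun a => D b (f j) (pnt C s ^^^ a)) μ = false) (fun F G a a' => by
      simp only [Bool.and_xor_distrib_left, S_xor', a, a', Bool.xor_false]) (fun a ha => by
      have e := fun b hb => List.any_eq_false.1 (h (j, l, a, b) (mem_cands.2 ⟨hj, h3, ha, hb⟩)) μ h1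
      refine ((S_congr fun s _ => ?_) μ).trans ((S_xor' ..).trans (congrArg₂ _ (Bool.eq_false_iff.2
        (e b (by simp [h5.1]))) (Bool.eq_false_iff.2 (e 0 (by simp)))))
      simp only [pnt_snoc, mv, D]
      cases s.testBit l <;> simp [Nat.xor_assoc, Nat.xor_comm]) (by simpa using h4.le) h5.2
  simp only [Dl_shift, Dl_D, hf.top h4] at h6
  rw [testBit_comb] at hl
  cases e : Dl (b :: L) (f j) 0
  · rfl
  · simp [e, hl] at h6

theorem core_spec (hT : ∀ t ∈ T, t < 2 ^ k) (hf : ∀ j < M, Deg (r + 1) (f j)) :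
    (core M k T r f).2 < 2 ^ Nm (T.length * T.length) r ∧
      ((core M k T r f).2 = 0 → Good f M T (core M k T r f).1) ∧
      ∀ j < M, f j (core M k T r f).2 = f j 0 := by
  induction r generalizing f with
  | zero => exact ⟨one_lt_two, fun h => absurd h one_ne_zero, fun j hj => (hf j hj).const _⟩
  | succ r ih =>
    obtain ⟨h1, h2, h3⟩ := loop_spec (k := k) (n := Nm (T.length * T.length) r) (T := T) hf
    simp only [core]
    generalize loop r f M k (Nm (T.length * T.length) r) T = C at *
    cases e : (rel f T C).all (comb T · == 0)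
    · obtain ⟨μ, h4, h5⟩ := List.all_eq_false.1 e
      obtain ⟨h6, h7, h8⟩ := ih fun j hj => stuck (hf j hj) hj hT h3 h4 (by simpa using h5)
      have h9 := (sub_spec (n := Nm (T.length * T.length) r) hf h1 h2).1
      obtain ⟨a, a'⟩ : (sub r f (Nm (T.length * T.length) r) T C).length = _ ∧
        ∀ y ∈ sub r f (Nm (T.length * T.length) r) T C, _ := cst_len _ _ _ _ _
      generalize sub r f (Nm (T.length * T.length) r) T C = Y at *
      exact ⟨(sp_comb _ _).lt a', fun c μ e => h7 (h9 _ (a ▸ h6) c) μ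
        (by simpa [pnt_map] using e), by simpa using h8⟩
    · refine ⟨Nat.two_pow_pos _, fun _ μ h => ?_, fun _ _ => rfl⟩
      rw [← comb_mod]
      exact (sp_kers (fun c _ => S_xor T _) (sp_units (Nat.mod_lt _ (Nat.two_pow_pos _)))
        fun c hc => (S_mod _ _ _).trans (h _ (h2 c hc))).ad (comb_xor T)
        fun y hy => by simpa using List.all_eq_true.1 e y hy

theorem dcd_spec {d t : ℕ} {y : ℕ → Bool} (hf : ∀ j < M, Deg (d + 2) (f j)) (ht : t < 2 ^ k)
    (hg : Good f M (sums (d + 1) (units k)) C) (hy : ∀ j < M, y j = f j (pnt C t)) :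
    dcd f M (sums (d + 1) (units k)) C y = t := by
  obtain ⟨μ, h1, h2⟩ := interp (d := d + 1) (sp_units ht)
  generalize sums (d + 1) (units k) = T at *
  have h3 : comb T μ = t := Nat.eq_of_testBit_eq fun b => by
    rw [testBit_comb, h2 _ ((Af.deg fun _ _ => Nat.testBit_xor ..).mono (by omega))]
  have h4 : ∀ j < M, S T (fun s => f j (pnt C s)) μ = y j := fun j hj => by
    rw [h2 _ ((hf j hj).comp (aff_pnt C)), hy j hj]
  have hψ : ∀ j ∈ List.range M, Af fun μ => S T (fun s => f j (pnt C s)) μ ^^
      (μ.testBit T.length && y j) := fun j _ a b => by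
    simp only [S_xor, Nat.testBit_xor, Bool.and_xor_distrib_right, Bool.xor_assoc,
      Bool.xor_left_comm]
  have h5 := Nat.testBit_lt_two_pow h1
  obtain ⟨h6, h7⟩ := (sp_kers hψ (sp_units (m := μ ^^^ 2 ^ T.length) (n := T.length + 1)
    (Nat.xor_lt_two_pow (by omega) (by omega))) fun j hj => by
      simp [S_xor, S_top, h4 j (List.mem_range.1 hj), h5]).find (p := (·.testBit T.length))
    (by simp) (fun a b => by simp +contextual) (by simp [h5])
  rw [dcd]
  generalize Option.getD _ 0 = ν at *
  have h8 := hg (ν ^^^ μ) fun j hj => by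
    simpa [S_xor, h4 j hj, h7] using kers_ker hψ h6 j (List.mem_range.2 hj)
  rwa [comb_xor, h3, Nat.xor_eq_zero_iff] at h8

end Pool.Agent.P.MP_7a71fe_lc.LD
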