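import Pool.Agent.P.MP_7a71fe_lc.LD.Deg

/-! A large subspace on which given functions of low degree are constant. -/

namespace Pool.Agent.P.MP_7a71fe_lc.LD

variable {ι : Type}

/-- Iterated differences of a fixed order. -/
def Dr : ℕ → List ℕ → (ℕ → Bool) → ℕ → Bool
  | 0, _, h => h
  | r + 1, l, h => D (l.headD 0) (Dr r l.tail h)

theorem Dr_eq (l : List ℕ) (h : ℕ → Bool) : Dr l.length l h = Dl l h := by
  induction l with
  | nil => rfl
  | cons a l ih => exact congrArg (D a) ih

/-- Lists of `r` members of `Y`. -/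
def tuples : ℕ → List ℕ → List (List ℕ)
  | 0, _ => [[]]
  | r + 1, Y => Y.flatMap fun y => (tuples r Y).map (y :: ·)

theorem mem_tuples {r : ℕ} {Y l : List ℕ} : l ∈ tuples r Y ↔ l.length = r ∧ ∀ a ∈ l, a ∈ Y := by
  induction r generalizing l with
  | zero => cases l <;> simp [tuples]
  | succ r ih => cases l <;> simp [tuples, ih, and_left_comm]

theorem length_tuples (r : ℕ) (Y : List ℕ) : (tuples r Y).length = Y.length ^ r := by
  induction r with
  | zero => rfl
  | succ r ih => simp [tuples, ih, pow_succ']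

/-- Linear independence. -/
def Ind (Y : List ℕ) : Prop := ∀ m < 2 ^ Y.length, comb Y m = 0 → m = 0

/-- The next generator, as a vector of the next block. -/
def nxt (r : ℕ) (g : ι → ℕ → Bool) (I : List ι) (β : ℕ) (Y : List ℕ) : ℕ :=
  ((kers (fun (p : ι × List ℕ) x => Dr (r + 1) (x * 2 ^ (Y.length * β) :: p.2) (g p.1) 0)
    (I ×ˢ tuples r Y) (units β)).find? (· != 0)).getD 0

/-- Generators on which the top forms vanish. -/
def kill (r : ℕ) (g : ι → ℕ → Bool) (I : List ι) (β n : ℕ) : List ℕ :=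
  (fun Y => Y ++ [nxt r g I β Y * 2 ^ (Y.length * β)])^[n] []

theorem find_lt {p : ℕ → Bool} {ψ : ι → ℕ → Bool} {I : List ι} {n : ℕ} :
    ((kers ψ I (units n)).find? p).getD 0 < 2 ^ n := by
  cases h : (kers ψ I (units n)).find? p with
  | none => exact Nat.two_pow_pos _
  | some x => exact (kers_sp (List.mem_of_find?_eq_some h)).lt fun _ => units_lt

theorem kill_len (r : ℕ) (g : ι → ℕ → Bool) (I : List ι) (β n : ℕ) :
    (kill r g I β n).length = n ∧ ∀ y ∈ kill r g I β n, y < 2 ^ (n * β) := by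
  induction n with
  | zero => simp [kill]
  | succ n ih =>
    rw [kill, Function.iterate_succ_apply', ← kill, ih.1, List.forall_mem_append,
      List.forall_mem_singleton, add_mul, one_mul]
    refine ⟨by simp [ih.1], fun y hy => (ih.2 y hy).trans_le
      (Nat.pow_le_pow_right two_pos (by omega)), ?_⟩
    rw [pow_add, mul_comm]
    exact Nat.mul_lt_mul_of_pos_left find_lt (by positivity)

theorem ad_mul (m : ℕ) : Ad (· * 2 ^ m) := fun a b => by
  simp only [← Nat.shiftLeft_eq, Nat.shiftLeft_xor_distrib]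

theorem nxt_spec {r β : ℕ} {g : ι → ℕ → Bool} {I : List ι} {Y : List ℕ}
    (hg : ∀ i ∈ I, Deg (r + 2) (g i)) (hβ : I.length * Y.length ^ r < β) :
    nxt r g I β Y ≠ 0 ∧ ∀ i ∈ I, ∀ l : List ℕ, l.length = r → (∀ a ∈ l, a ∈ Y) →
      Dl (nxt r g I β Y * 2 ^ (Y.length * β) :: l) (g i) 0 = false := by
  have e : ∀ (l : List ℕ) x h, l.length = r → Dr (r + 1) (x :: l) h = Dl (x :: l) h :=
    fun l x h e => e ▸ Dr_eq (x :: l) h
  have hψ : ∀ p ∈ I ×ˢ tuples r Y,
      Af fun x => Dr (r + 1) (x * 2 ^ (Y.length * β) :: p.2) (g p.1) 0 := fun ⟨i, l⟩ hp a b => by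
    obtain ⟨h1, h2⟩ := List.mem_product.1 hp
    have h3 := (mem_tuples.1 h2).1
    simp only [e _ _ _ h3, ad_mul _ a b]
    exact (hg i h1).af h3 _ _
  obtain ⟨x, h1, h2, h3⟩ := exists_ker hψ (n := β) (by rwa [List.length_product, length_tuples])
  obtain ⟨h4, h5⟩ := (sp_kers hψ (sp_units h1) h3).find (p := (· != 0)) rfl
    (fun a b => by simp +contextual) (by simpa using h2)
  refine ⟨bne_iff_ne.1 h5, fun i hi l hl hY => ?_⟩
  rw [← e _ _ _ hl]
  exact kers_ker hψ h4 (i, l) (List.mem_product.2 ⟨hi, mem_tuples.2 ⟨hl, hY⟩⟩)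

theorem kill_spec {r β n : ℕ} {g : ι → ℕ → Bool} {I : List ι}
    (hg : ∀ i ∈ I, Deg (r + 2) (g i)) (hβ : I.length * n ^ r < β) :
    Ind (kill r g I β n) ∧ ∀ i ∈ I, ∀ l : List ℕ, l.length = r + 1 →
      (∀ a ∈ l, a ∈ kill r g I β n) → Dl l (g i) 0 = false := by
  induction n with
  | zero =>
    refine ⟨fun m hm _ => by simpa [kill] using hm, fun i _ l hl h => ?_⟩
    rw [List.eq_nil_iff_forall_not_mem.2 fun a c => List.not_mem_nil (h a c)] at hl
    cases hl
  | succ n ih =>
    have h0 := (Nat.mul_le_mul_left _ (Nat.pow_le_pow_left n.le_succ r)).trans_lt hβ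
    obtain ⟨h1, h2⟩ := ih h0
    obtain ⟨h3, h4⟩ := kill_len r g I β n
    rw [kill, Function.iterate_succ_apply', ← kill]
    generalize kill r g I β n = Y at *
    subst h3
    obtain ⟨h5, h6⟩ := nxt_spec hg h0
    replace h5 := Nat.le_mul_of_pos_left (2 ^ (Y.length * β)) (Nat.pos_of_ne_zero h5)
    generalize nxt r g I β Y * 2 ^ (Y.length * β) = y at *
    refine ⟨fun m hm e => ?_, fun i hi l hl h => ?_⟩
    · rw [comb_snoc] at e
      cases a : m.testBit Y.length
      · refine h1 m ?_ (by simpa [a] using e)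
        rw [List.length_append, List.length_singleton] at hm
        by_contra c
        rw [Nat.testBit_of_two_pow_le_and_two_pow_add_one_gt (by omega) hm] at a
        cases a
      · have := (sp_comb Y m).lt h4
        simp [a] at e
        omega
    by_cases a : y ∈ l
    · rw [Dl_perm (List.perm_cons_erase a)]
      by_cases b : y ∈ l.erase y
      · rw [Dl_perm ((List.perm_cons_erase b).cons y)]
        exact D_self _ _ _
      · refine h6 i hi _ (by simp [a, hl]) fun z hz => ?_
        exact (List.mem_append.1 (h z (List.mem_of_mem_erase hz))).resolve_right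
          fun c => b (List.mem_singleton.1 c ▸ hz)
    · exact h2 i hi l hl fun z hz => (List.mem_append.1 (h z hz)).resolve_right
        fun c => a (List.mem_singleton.1 c ▸ hz)

/-- The number of coordinates used. -/
def Nc : ℕ → ℕ → ℕ → ℕ
  | 0, _, n => n
  | r + 1, c, n => Nc r c n * (c * Nc r c n ^ r + 1)

/-- Generators of a subspace on which the functions are constant. -/
def cst : ℕ → (ι → ℕ → Bool) → List ι → ℕ → ℕ → List ℕ
  | 0, _, _, _, n => units n
  | r + 1, g, I, c, n =>
    (cst r (fun i x => g i (comb (kill r g I (c * Nc r c n ^ r + 1) (Nc r c n)) x)) I c n).map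
      (comb (kill r g I (c * Nc r c n ^ r + 1) (Nc r c n)))

theorem cst_len (r : ℕ) (g : ι → ℕ → Bool) (I : List ι) (c n : ℕ) :
    (cst r g I c n).length = n ∧ ∀ y ∈ cst r g I c n, y < 2 ^ Nc r c n := by
  induction r generalizing g with
  | zero => exact ⟨length_units n, fun _ => units_lt⟩
  | succ r ih =>
    refine ⟨(List.length_map _).trans (ih _).1, List.forall_mem_map.2 fun y _ => ?_⟩
    exact (sp_comb _ _).lt (kill_len _ _ _ _ _).2

theorem cst_spec {r c n : ℕ} {g : ι → ℕ → Bool} {I : List ι} (hg : ∀ i ∈ I, Deg (r + 1) (g i))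
    (hc : I.length ≤ c) :
    Ind (cst r g I c n) ∧ ∀ i ∈ I, ∀ y, Sp (cst r g I c n) y → g i y = g i 0 := by
  induction r generalizing g with
  | zero =>
    refine ⟨fun m hm e => ?_, fun i hi y _ => (hg i hi).const y⟩
    rwa [cst, comb_units (by simpa [cst] using hm)] at e
  | succ r ih =>
    obtain ⟨h1, h2⟩ := kill_spec hg (n := Nc r c n)
      (Nat.lt_succ_of_le (Nat.mul_le_mul_right _ hc))
    have h3 := (kill_len r g I (c * Nc r c n ^ r + 1) (Nc r c n)).1
    rw [cst]
    generalize kill r g I (c * Nc r c n ^ r + 1) (Nc r c n) = Y at *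
    obtain ⟨h4, h5⟩ := ih fun i hi => (hg i hi).drop (h2 i hi)
    refine ⟨fun m hm e => h4 m (by simpa using hm) (h1 _ ?_ ?_), fun i hi y hy => ?_⟩
    · exact h3 ▸ (sp_comb _ _).lt (cst_len _ _ _ _ _).2
    · rwa [comb_map (comb_xor Y)] at e
    · obtain ⟨z, hz, rfl⟩ := hy.of_map (comb_xor Y)
      simpa using h5 i hi z hz

end Pool.Agent.P.MP_7a71fe_lc.LD
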