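import Pool.Agent.P.MP_7a71fe_lc.AC.Defs

/-!
Reductions whose output bits are polynomials of bounded degree over the field with two elements.
-/

namespace Pool.Agent.P.MP_7a71fe_lc.LD

open Pool.Agent.P.MP_7a71fe_lc.AC

/-- On inputs of each length the output bits are polynomials of bounded degree in the input bits. -/
def LowDeg (f : List Bool → List Bool) : Prop :=
  ∃ d : ℕ, ∀ n : ℕ, ∃ P : List (MvPolynomial ℕ (ZMod 2)), (∀ p ∈ P, p.totalDegree ≤ d) ∧
    ∀ x : List Bool, x.length = n → f x = P.map fun p =>
      decide (MvPolynomial.eval (fun i => if x.getD i false then 1 else 0) p = 1)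

/-- Complete for exponential time under polynomial-time reductions of bounded degree. -/
def LDComplete (A : Set (List Bool)) : Prop :=
  InEXP A ∧ ∀ L, InEXP L → ∃ f, Red L A f ∧ LowDeg f

end Pool.Agent.P.MP_7a71fe_lc.LD
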