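import Pool.Agent.P.MP_7a71fe_lc.LD.Main

/-! Invertible reductions from reductions that have low degree on a large subcube. -/

namespace Pool.Agent.P.MP_7a71fe_lc.LD

open Pool.Agent.Lib.Helper47 Pool.Agent.P.MP_7a71fe_lc.AC
open Pool.Agent.P.MP_ba7db8_lc hiding idx

variable (φ : Str → Str) (d : ℕ) (w : Str → ℕ → ℕ → Str)

/-- `φ` has low degree on the strings `w c k u`. -/
structure Easy : Prop where
  pt : ∀ {α : Type} [Enc α] {c : α → Str} {k u : α → ℕ}, PT c → PT k → PS k → PT u →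
    PT fun a => w (c a) (k a) (u a)
  ok : ∀ c, ∃ K, ∀ k, K ≤ k → (∀ u, fstP (w c k u) = c ∧ (fstP (sndP (w c k u))).length = k ∧
    k ≤ (w c k u).length ∧ (φ (w c k u)).length = (φ (w c k 0)).length) ∧
    (∀ j, Deg (d + 2) fun u => (φ (w c k u)).getD j false) ∧
    ∀ u < 2 ^ nn d k, w c k 0 = w c k u → u = 0

variable (c : Str) (k : ℕ)

def cg : List Cd × ℕ := core (φ (w c k 0)).length k (sums (d + 1) (units k)) (d + 1)
  fun j u => (φ (w c k u)).getD j false

def dg (y : Str) : Str := str (dcd (fun j u => (φ (w c k u)).getD j false) (φ (w c k 0)).length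
  (sums (d + 1) (units k)) (cg φ d w c k).1 (y.getD · false))

variable {φ d w}

theorem Easy.pts (h : Easy φ d w) (hφ : PT φ) {α : Type} [Enc α] {c : α → Str} {k : α → ℕ}
    (hc : PT c) (hk : PT k) (hk' : PS k) : PT (fun a => cg φ d w (c a) (k a)) ∧
      ∀ {y : α → Str}, PT y → PT fun a => dg φ d w (c a) (k a) (y a) := by
  have h1 : PT fun p : α × ℕ × ℕ => (φ (w (c p.1) (k p.1) p.2.2)).getD p.2.1 false :=
    PT.getD (hφ.comp (h.pt (by fun_prop) (by fun_prop) (ps_fst hk') (by fun_prop))) (by fun_prop)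
      (PT.const _)
  have h2 := hφ.comp (h.pt hc hk hk' (PT.const 0))
  have h3 := (pt_sums (d + 1)).comp (pt_units hk hk')
  have h4 := pt_core (f := fun a j u => (φ (w (c a) (k a) u)).getD j false) (d + 1) h1 h3
    (PT.length h2) (ps_length h2) hk hk'
  exact ⟨h4, fun hy => pt_str (pt_dcd (f := fun a j u => (φ (w (c a) (k a) u)).getD j false) h1 h3
    (PT.length h2) (ps_length h2) (PT.fst h4) (by fun_prop))⟩

theorem Easy.emb (h : Easy φ d w) (hφ : PT φ) {K A : Set Str} {yes no : Str} (hy : yes ∈ K)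
    (hn : no ∉ K) (hr : ∀ z, ((U (dec (fstP z)) z (2 ^ z.length)).getD []).take z.length ∈ K ↔
      φ z ∈ A) : Emb K A := by
  let G : Str → Str := fun z =>
    if (cg φ d w (fstP z) (fstP (sndP z)).length).2 = 0 then
      dg φ d w (fstP z) (fstP (sndP z)).length (φ z)
    else if w (fstP z) (fstP (sndP z)).length (cg φ d w (fstP z) (fstP (sndP z)).length).2 = z
      then yes else no
  have hG : PT G := by
    have a1 : PT fun z => fstP (sndP z) := by fun_prop
    obtain ⟨a2, a3⟩ := h.pts hφ (pt_fstP PT.id) (PT.length a1) (ps_length a1)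
    exact pt_iteq (PT.snd a2) (PT.const 0) (a3 hφ) (pt_iteq (h.pt (pt_fstP PT.id) (PT.length a1)
      (ps_length a1) (PT.snd a2)) PT.id (PT.const _) (PT.const _))
  obtain ⟨e, q, he⟩ := U_pt hG
  obtain ⟨N0, h0⟩ := poly_lt (g := q.eval) ⟨q, fun _ => le_rfl⟩
  obtain ⟨N1, hd⟩ := h.ok e.enc
  obtain ⟨N, b0, b1, b2, b3⟩ : ∃ N, N0 ≤ N ∧ N1 ≤ N ∧ yes.length ≤ N ∧ no.length ≤ N :=
    ⟨N0 + N1 + yes.length + no.length, by omega⟩
  replace hd := fun k (hk : N ≤ k) => hd k (b1.trans hk)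
  let m : ℕ → ℕ := fun k => (φ (w e.enc k 0)).length
  have h1 : ∀ k, N ≤ k → ∀ u, ((if (cg φ d w e.enc k).2 = 0 then dg φ d w e.enc k (φ (w e.enc k u))
      else if w e.enc k (cg φ d w e.enc k).2 = w e.enc k u then yes else no).take
        (w e.enc k u).length ∈ K ↔ φ (w e.enc k u) ∈ A) := fun k hk u => by
    obtain ⟨a1, a2, a3, -⟩ := (hd k hk).1 u
    rw [← hr, a1, dec_enc, he _ _ (h0 _ (by omega)).le, Option.getD_some]
    simp only [G, a1, a2]
  have h3 := fun k hk => core_spec (M := m k) (k := k) (T := sums (d + 1) (units k))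
    (f := fun j u => (φ (w e.enc k u)).getD j false)
    (fun t ht => (sp_sums ht).lt fun _ => units_lt) fun j _ => (hd k hk).2.1 j
  have h4 : ∀ k, N ≤ k → (cg φ d w e.enc k).2 = 0 := fun k hk => by_contra fun c => by
    have a1 := h1 k hk (cg φ d w e.enc k).2
    have a2 := h1 k hk 0
    rw [if_neg c, if_pos rfl, List.take_of_length_le (b2.trans (hk.trans ((hd k hk).1 _).2.2.1))]
      at a1
    rw [if_neg c, if_neg fun a => c ((hd k hk).2.2 _ (h3 k hk).1 a.symm),
      List.take_of_length_le (b3.trans (hk.trans ((hd k hk).1 _).2.2.1))] at a2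
    refine hn (a2.2 (List.ext_getElem ((hd k hk).1 _).2.2.2 (fun j b b' => ?_) ▸ a1.1 hy))
    exact (List.getD_eq_getElem _ _ b).symm.trans
      (((h3 k hk).2.2 j b').trans (List.getD_eq_getElem _ _ b'))
  have h5 : ∀ k, N ≤ k → ∀ t, t < 2 ^ k →
      dg φ d w e.enc k (φ (w e.enc k (pnt (cg φ d w e.enc k).1 t))) = str t := fun k hk t ht =>
    congrArg str (dcd_spec (fun j _ => (hd k hk).2.1 j) ht ((h3 k hk).2.1 (h4 k hk))
      fun _ _ => rfl)
  have h6 : ∀ k, N ≤ k → k ≤ m k := fun k hk => by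
    have := Fintype.card_le_of_injective (β := List.Vector Bool (m k)) (fun t : Fin (2 ^ k) =>
      ⟨_, ((hd k hk).1 (pnt (cg φ d w e.enc k).1 t)).2.2.2⟩) fun s t a => Fin.ext (by
        have b := h5 k hk s s.2
        rw [Subtype.mk.inj a, h5 k hk t t.2] at b
        simpa using congrArg idx b.symm)
    rwa [Fintype.card_fin, card_vector, Fintype.card_bool,
      Nat.pow_le_pow_iff_right one_lt_two] at this
  let τ : ℕ → ℕ := fun n => n - ((List.range (n + 1)).find? fun i => m (n - i) == n).getD 0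
  have h7 : ∀ k, N ≤ k → k ≤ τ (m k) ∧ m (τ (m k)) = m k := fun k hk => by
    have := h6 k hk
    simp only [τ]
    cases a : (List.range (m k + 1)).find? fun i => m (m k - i) == m k with
    | none => simpa [Nat.sub_sub_self this] using List.find?_eq_none.1 a (m k - k) (by simp)
    | some i =>
      obtain ⟨a1, -, a2⟩ := List.find?_range_eq_some.1 a
      refine ⟨le_of_not_gt fun b => ?_, by simpa using a1⟩
      simpa [Nat.sub_sub_self this] using a2 (m k - k) (by simp at b; omega)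
  have p2 : ∀ {α : Type} [Enc α] {k : α → ℕ}, PT k → PS k → PT (fun a => m (k a)) ∧
      PS fun a => m (k a) := fun hk hk' =>
    have := hφ.comp (h.pt (PT.const e.enc) hk hk' (PT.const 0))
    ⟨PT.length this, ps_length this⟩
  have p3 : ∀ {n : Str → ℕ}, PT n → PS n → PT (fun a => τ (n a)) ∧ PS fun a => τ (n a) :=
    fun hn hn' => ⟨PT.sub hn (PT.optGetD (PT.find? (PT.beq (p2 (by fun_prop) ((ps_fst hn').mono
      fun _ => Nat.sub_le _ _)).1 (by fun_prop)) (PT.range (by fun_prop) (hn'.add (PB.const 1))))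
      (PT.const 0)), hn'.mono fun _ => Nat.sub_le _ _⟩
  have p4 := p2 (k := fun x : Str => x.length + 1 + N) (by fun_prop)
    (((ps_length PT.id).add (PB.const 1)).add (PB.const N))
  obtain ⟨p5, p6⟩ := p3 p4.1 p4.2
  obtain ⟨p7, p8⟩ := p3 (PT.length PT.id) (ps_length PT.id)
  refine ⟨_, _, hφ.comp (h.pt (PT.const e.enc) p5 p6 (pt_pnt (PT.fst (h.pts hφ (PT.const e.enc)
    p5 p6).1) (pt_idx PT.id))), (h.pts hφ (PT.const e.enc) p7 p8).2 PT.id, forall_and.1 fun x => ?_⟩
  obtain ⟨a1, a2⟩ := h7 (x.length + 1 + N) (by omega)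
  have a3 := h6 (x.length + 1 + N) (by omega)
  have a4 : N ≤ τ (m (x.length + 1 + N)) := by omega
  have a5 := h5 _ a4 _ ((idx_lt x).trans_le (Nat.pow_le_pow_right two_pos (by omega)))
  have a6 := ((hd _ a4).1 (pnt (cg φ d w e.enc (τ (m (x.length + 1 + N)))).1 (idx x))).2.2
  rw [a6.2.trans a2, ← h1 _ a4, if_pos (h4 _ a4), a5, str_idx, List.take_of_length_le (by omega)]
  exact ⟨⟨rfl, by omega⟩, Iff.rfl⟩

end Pool.Agent.P.MP_7a71fe_lc.LD
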