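import Mathlib

/-! Linear algebra over the field with two elements on bit masks. -/

namespace Pool.Agent.P.MP_7a71fe_lc.LD

/-- The parity of the number of `i < n` with `h i`. -/
def bs (n : ℕ) (h : ℕ → Bool) : Bool := ((List.range n).countP h).bodd

@[simp] theorem bs_zero (h : ℕ → Bool) : bs 0 h = false := by simp [bs]

theorem bs_succ (n : ℕ) (h : ℕ → Bool) : bs (n + 1) h = (bs n h ^^ h n) := by
  rw [bs, List.range_succ, List.countP_append, Nat.bodd_add, List.countP_singleton]
  cases h n <;> rfl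

theorem bs_congr {n : ℕ} {h g : ℕ → Bool} (e : ∀ i < n, h i = g i) : bs n h = bs n g := by
  induction n with
  | zero => simp
  | succ n ih => rw [bs_succ, bs_succ, ih fun i hi => e i (by omega), e n (by omega)]

theorem bs_xor (n : ℕ) (h g : ℕ → Bool) : bs n (fun i => h i ^^ g i) = (bs n h ^^ bs n g) := by
  induction n with
  | zero => simp
  | succ n ih =>
    simp only [bs_succ, ih]
    cases bs n h <;> cases bs n g <;> cases h n <;> cases g n <;> rfl

theorem bs_false {n : ℕ} {h : ℕ → Bool} (e : ∀ i < n, h i = false) : bs n h = false := by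
  induction n with
  | zero => simp
  | succ n ih => rw [bs_succ, ih fun i hi => e i (by omega), e n (by omega)]; rfl

theorem bs_single {n j : ℕ} {h : ℕ → Bool} (hj : j < n) (e : ∀ i < n, i ≠ j → h i = false) :
    bs n h = h j := by
  induction n with
  | zero => omega
  | succ n ih =>
    rw [bs_succ]
    rcases Nat.lt_succ_iff_lt_or_eq.1 hj with a | rfl
    · rw [ih a fun i hi => e i (by omega), e n (by omega) (by omega), Bool.xor_false]
    · rw [bs_false fun i hi => e i (by omega) (by omega), Bool.false_xor]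

/-- The sum of the values of `h` at the members of `T` selected by `m`. -/
def S (T : List ℕ) (h : ℕ → Bool) (m : ℕ) : Bool :=
  bs T.length fun i => m.testBit i && h (T.getD i 0)

theorem S_xor (T : List ℕ) (h : ℕ → Bool) (m m' : ℕ) :
    S T h (m ^^^ m') = (S T h m ^^ S T h m') := by
  rw [S, S, S, ← bs_xor]
  exact bs_congr fun i _ => by rw [Nat.testBit_xor, Bool.and_xor_distrib_right]

theorem S_xor' (T : List ℕ) (h g : ℕ → Bool) (m : ℕ) :
    S T (fun t => h t ^^ g t) m = (S T h m ^^ S T g m) := by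
  rw [S, S, S, ← bs_xor]
  exact bs_congr fun i _ => by rw [Bool.and_xor_distrib_left]

theorem getD_mem {T : List ℕ} {i : ℕ} (hi : i < T.length) : T.getD i 0 ∈ T := by
  rw [List.getD_eq_getElem _ _ hi]; exact List.getElem_mem hi

theorem S_congr {T : List ℕ} {h g : ℕ → Bool} (e : ∀ t ∈ T, h t = g t) (m : ℕ) :
    S T h m = S T g m := bs_congr fun i hi => by rw [e _ (getD_mem hi)]

theorem S_false {T : List ℕ} {h : ℕ → Bool} (e : ∀ t ∈ T, h t = false) (m : ℕ) :
    S T h m = false := bs_false fun i hi => by rw [e _ (getD_mem hi), Bool.and_false]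

@[simp] theorem S_zero (T : List ℕ) (h : ℕ → Bool) : S T h 0 = false :=
  bs_false fun i _ => by simp

theorem S_pow {T : List ℕ} (h : ℕ → Bool) {j : ℕ} (hj : j < T.length) :
    S T h (2 ^ j) = h (T.getD j 0) := by
  rw [S, bs_single hj fun i _ e => by simp [e.symm]]
  simp

theorem S_top (T : List ℕ) (h : ℕ → Bool) : S T h (2 ^ T.length) = false :=
  bs_false fun i hi => by simp [hi.ne']

theorem S_mod (T : List ℕ) (h : ℕ → Bool) (m : ℕ) : S T h (m % 2 ^ T.length) = S T h m :=
  bs_congr fun i hi => by simp [Nat.testBit_mod_two_pow, hi]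

theorem S_snoc (T : List ℕ) (y : ℕ) (h : ℕ → Bool) (m : ℕ) :
    S (T ++ [y]) h m = (S T h m ^^ (m.testBit T.length && h y)) := by
  rw [S, List.length_append, List.length_singleton, bs_succ, S]
  congr 1
  · exact bs_congr fun i hi => by rw [List.getD_append _ _ _ _ hi]
  · simp

/-- The number with the bits `h i`, `i < n`. -/
def ofB (n : ℕ) (h : ℕ → Bool) : ℕ := ((List.range n).map h).foldr Nat.bit 0

theorem testBit_foldr (l : List Bool) (i : ℕ) :
    (l.foldr Nat.bit 0).testBit i = l.getD i false := by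
  induction l generalizing i with
  | nil => simp
  | cons b l ih => cases i <;> simp [Nat.testBit_bit_succ, ih]

theorem testBit_ofB (n : ℕ) (h : ℕ → Bool) (i : ℕ) :
    (ofB n h).testBit i = (decide (i < n) && h i) := by
  rw [ofB, testBit_foldr]
  by_cases e : i < n <;> simp [e]

/-- The sum of the members of `Y` selected by `m`. -/
def comb (Y : List ℕ) (m : ℕ) : ℕ :=
  ofB (Y.map fun y => y.bits.length).sum fun b => S Y (·.testBit b) m

theorem testBit_comb (Y : List ℕ) (m b : ℕ) : (comb Y m).testBit b = S Y (·.testBit b) m := by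
  rw [comb, testBit_ofB]
  by_cases e : b < (Y.map fun y => y.bits.length).sum
  · simp [e]
  · rw [S_false fun t ht => Nat.testBit_lt_two_pow ?_, Bool.and_false]
    have := List.single_le_sum (fun _ _ => Nat.zero_le _) _
      (List.mem_map_of_mem (f := fun y : ℕ => y.bits.length) ht)
    rw [Nat.size_eq_bits_len] at this
    exact (Nat.lt_size_self t).trans_le (Nat.pow_le_pow_right two_pos (by omega))

theorem comb_xor (Y : List ℕ) (m m' : ℕ) : comb Y (m ^^^ m') = comb Y m ^^^ comb Y m' :=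
  Nat.eq_of_testBit_eq fun b => by simp only [Nat.testBit_xor, testBit_comb, S_xor]

@[simp] theorem comb_zero (Y : List ℕ) : comb Y 0 = 0 :=
  Nat.eq_of_testBit_eq fun b => by simp [testBit_comb]

theorem comb_mod (Y : List ℕ) (m : ℕ) : comb Y (m % 2 ^ Y.length) = comb Y m :=
  Nat.eq_of_testBit_eq fun b => by simp only [testBit_comb, S_mod]

theorem comb_snoc (Y : List ℕ) (y m : ℕ) :
    comb (Y ++ [y]) m = comb Y m ^^^ bif m.testBit Y.length then y else 0 :=
  Nat.eq_of_testBit_eq fun b => by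
    simp only [Nat.testBit_xor, testBit_comb, S_snoc]
    cases m.testBit Y.length <;> simp

@[simp] theorem comb_nil (m : ℕ) : comb [] m = 0 := rfl

/-- The span of a list. -/
inductive Sp (Y : List ℕ) : ℕ → Prop
  | zero : Sp Y 0
  | step {y x : ℕ} : y ∈ Y → Sp Y x → Sp Y (y ^^^ x)

theorem Sp.mem {Y : List ℕ} {y : ℕ} (h : y ∈ Y) : Sp Y y := by simpa using Sp.step h .zero

theorem Sp.xor {Y : List ℕ} {x z : ℕ} (h : Sp Y x) (h' : Sp Y z) : Sp Y (x ^^^ z) := by
  induction h with
  | zero => simpa using h'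
  | step hy _ ih => exact Nat.xor_assoc _ _ _ ▸ .step hy ih

theorem Sp.trans {Y Z : List ℕ} {x : ℕ} (h : Sp Y x) (e : ∀ y ∈ Y, Sp Z y) : Sp Z x := by
  induction h with
  | zero => exact .zero
  | step hy _ ih => exact (e _ hy).xor ih

theorem Sp.lt {Y : List ℕ} {x N : ℕ} (h : Sp Y x) (e : ∀ y ∈ Y, y < 2 ^ N) : x < 2 ^ N := by
  induction h with
  | zero => positivity
  | step hy _ ih => exact Nat.xor_lt_two_pow (e _ hy) ih

/-- Additive maps. -/
def Ad (φ : ℕ → ℕ) : Prop := ∀ a b, φ (a ^^^ b) = φ a ^^^ φ b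

/-- Additive functionals. -/
def Af (ψ : ℕ → Bool) : Prop := ∀ a b, ψ (a ^^^ b) = (ψ a ^^ ψ b)

theorem Ad.zero {φ : ℕ → ℕ} (h : Ad φ) : φ 0 = 0 := by simpa using h 0 0

theorem Af.zero {ψ : ℕ → Bool} (h : Af ψ) : ψ 0 = false := by simpa using h 0 0

theorem Sp.map {Y : List ℕ} {x : ℕ} {φ : ℕ → ℕ} (h : Sp Y x) (hφ : Ad φ) :
    Sp (Y.map φ) (φ x) := by
  induction h with
  | zero => rw [hφ.zero]; exact .zero
  | step hy _ ih => rw [hφ]; exact .step (List.mem_map_of_mem hy) ih

theorem Sp.of_map {Y : List ℕ} {x : ℕ} {φ : ℕ → ℕ} (h : Sp (Y.map φ) x) (hφ : Ad φ) :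
    ∃ z, Sp Y z ∧ φ z = x := by
  induction h with
  | zero => exact ⟨0, .zero, hφ.zero⟩
  | step hy _ ih =>
    obtain ⟨y, hy', e⟩ := List.mem_map.1 hy
    obtain ⟨z, hz, e'⟩ := ih
    exact ⟨_, .step hy' hz, by rw [hφ, e, e']⟩

theorem Sp.af {Y : List ℕ} {x : ℕ} {ψ : ℕ → Bool} (h : Sp Y x) (hψ : Af ψ)
    (e : ∀ y ∈ Y, ψ y = false) : ψ x = false := by
  induction h with
  | zero => exact hψ.zero
  | step hy _ ih => rw [hψ, e _ hy, ih]; rfl

theorem sp_comb (Y : List ℕ) (m : ℕ) : Sp Y (comb Y m) := by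
  induction Y using List.reverseRecOn with
  | nil => exact .zero
  | append_singleton Y y ih =>
    rw [comb_snoc]
    refine (ih.trans fun _ h => .mem (by simp [h])).xor ?_
    cases m.testBit Y.length
    exacts [.zero, .mem (by simp)]

theorem comb_map {φ : ℕ → ℕ} (hφ : Ad φ) (Y : List ℕ) (m : ℕ) :
    comb (Y.map φ) m = φ (comb Y m) := by
  induction Y using List.reverseRecOn with
  | nil => exact hφ.zero.symm
  | append_singleton Y y ih =>
    rw [List.map_append, List.map_singleton, comb_snoc, comb_snoc, hφ, ih, List.length_map]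
    cases m.testBit Y.length <;> simp [hφ.zero]

/-- The unit vectors. -/
def units (n : ℕ) : List ℕ := (List.range n).map (2 ^ ·)

@[simp] theorem length_units (n : ℕ) : (units n).length = n := by simp [units]

theorem units_lt {n y : ℕ} (h : y ∈ units n) : y < 2 ^ n := by
  obtain ⟨i, hi, rfl⟩ := List.mem_map.1 h
  exact Nat.pow_lt_pow_right one_lt_two (List.mem_range.1 hi)

theorem comb_units {n m : ℕ} (h : m < 2 ^ n) : comb (units n) m = m :=
  Nat.eq_of_testBit_eq fun b => by
    rw [testBit_comb, S, length_units]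
    by_cases e : b < n
    · rw [bs_single e fun i hi e => by simp [units, hi, e]]
      simp [units, e]
    · rw [bs_false fun i hi => by simp [units, hi, Nat.testBit_two_pow]; omega,
        Nat.testBit_lt_two_pow (h.trans_le (Nat.pow_le_pow_right two_pos (by omega)))]

theorem sp_units {n m : ℕ} (h : m < 2 ^ n) : Sp (units n) m := comb_units h ▸ sp_comb _ _

/-- One step of elimination. -/
def elim (ψ : ℕ → Bool) (R : List ℕ) : List ℕ :=
  R.map fun x => bif ψ x then (R.find? ψ).getD 0 ^^^ x else x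

@[simp] theorem length_elim (ψ : ℕ → Bool) (R : List ℕ) : (elim ψ R).length = R.length := by
  simp [elim]

theorem piv {ψ : ℕ → Bool} {R : List ℕ} {x : ℕ} (hx : x ∈ R) (e : ψ x = true) :
    (R.find? ψ).getD 0 ∈ R ∧ ψ ((R.find? ψ).getD 0) = true := by
  cases h : R.find? ψ with
  | none => exact absurd e (List.find?_eq_none.1 h x hx)
  | some r => exact ⟨List.mem_of_find?_eq_some h, List.find?_some h⟩

theorem elim_sp {ψ : ℕ → Bool} {R : List ℕ} {z : ℕ} (h : z ∈ elim ψ R) : Sp R z := by
  obtain ⟨x, hx, rfl⟩ := List.mem_map.1 h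
  cases e : ψ x
  exacts [.mem hx, .step (piv hx e).1 (.mem hx)]

theorem elim_ker {ψ : ℕ → Bool} (hψ : Af ψ) {R : List ℕ} {z : ℕ} (h : z ∈ elim ψ R) :
    ψ z = false := by
  obtain ⟨x, hx, rfl⟩ := List.mem_map.1 h
  cases e : ψ x
  · exact e
  · simp [hψ _ _, e, (piv hx e).2]

theorem sp_elim {ψ : ℕ → Bool} (hψ : Af ψ) {R : List ℕ} {z : ℕ} (h : Sp R z) (e : ψ z = false) :
    Sp (elim ψ R) z := by
  have : Sp (elim ψ R) (bif ψ z then (R.find? ψ).getD 0 ^^^ z else z) := by
    clear e
    induction h with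
    | zero => simpa [hψ.zero] using .zero
    | @step y x hy _ ih =>
      have : Sp (elim ψ R) ((bif ψ y then (R.find? ψ).getD 0 ^^^ y else y) ^^^ _) :=
        Sp.step (List.mem_map_of_mem hy) ih
      rw [hψ]
      clear ih
      generalize elim ψ R = R' at *
      generalize (R.find? ψ).getD 0 = r at *
      cases e1 : ψ y <;> cases e2 : ψ x <;>
        simpa [e1, e2, Nat.xor_assoc, Nat.xor_left_comm] using this
  simpa [e] using this

theorem elim_count {ψ : ℕ → Bool} (hψ : Af ψ) {R : List ℕ} {x : ℕ} (hx : x ∈ R)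
    (e : ψ x = true) : (elim ψ R).countP (· != 0) < R.countP (· != 0) := by
  obtain ⟨h1, h2⟩ := piv hx e
  rw [elim, List.countP_map]
  generalize (R.find? ψ).getD 0 = r at *
  have h3 : ∀ l : List ℕ, l.countP ((· != 0) ∘ fun x => bif ψ x then r ^^^ x else x) ≤
      l.countP (· != 0) := fun l => List.countP_mono_left fun z _ hz => by
    rcases eq_or_ne z 0 with rfl | a
    · simp [hψ.zero] at hz
    · simpa using a
  obtain ⟨l, l', rfl⟩ := List.append_of_mem h1
  have h4 : r ≠ 0 := fun a => by simp [a, hψ.zero] at h2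
  have := h3 l
  have := h3 l'
  simp only [List.countP_append, List.countP_cons, Function.comp, h2, h4, cond_true, Nat.xor_self,
    bne_self_eq_false, bne_iff_ne, ne_eq, not_false_eq_true, if_true, Bool.false_eq_true,
    if_false] at *
  omega

/-- Elimination for a list of functionals. -/
def kers {ι : Type} (ψ : ι → ℕ → Bool) (I : List ι) (R : List ℕ) : List ℕ :=
  I.foldl (fun R i => elim (ψ i) R) R

theorem kers_sp {ι : Type} {ψ : ι → ℕ → Bool} {I : List ι} {R : List ℕ} {z : ℕ}
    (h : z ∈ kers ψ I R) : Sp R z := by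
  induction I generalizing R with
  | nil => exact .mem h
  | cons i I ih => exact (ih h).trans fun _ => elim_sp

@[simp] theorem length_kers {ι : Type} (ψ : ι → ℕ → Bool) (I : List ι) (R : List ℕ) :
    (kers ψ I R).length = R.length := by
  induction I generalizing R with
  | nil => rfl
  | cons i I ih => exact (ih _).trans (length_elim _ _)

theorem kers_ker {ι : Type} {ψ : ι → ℕ → Bool} {I : List ι} (hψ : ∀ i ∈ I, Af (ψ i))
    {R : List ℕ} {z : ℕ} (h : z ∈ kers ψ I R) : ∀ i ∈ I, ψ i z = false := by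
  induction I generalizing R with
  | nil => simp
  | cons i I ih =>
    rw [List.forall_mem_cons] at hψ ⊢
    exact ⟨(kers_sp (I := I) h).af hψ.1 fun _ => elim_ker hψ.1, ih hψ.2 h⟩

theorem sp_kers {ι : Type} {ψ : ι → ℕ → Bool} {I : List ι} (hψ : ∀ i ∈ I, Af (ψ i))
    {R : List ℕ} {z : ℕ} (h : Sp R z) (e : ∀ i ∈ I, ψ i z = false) : Sp (kers ψ I R) z := by
  induction I generalizing R with
  | nil => exact h
  | cons i I ih =>
    rw [List.forall_mem_cons] at hψ e
    exact ih hψ.2 (sp_elim hψ.1 h e.1) e.2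

/-- A member of the list on which the functional is true. -/
theorem Sp.find {Y : List ℕ} {x : ℕ} (h : Sp Y x) {p : ℕ → Bool} (h0 : p 0 = false)
    (hp : ∀ a b, p a = false → p b = false → p (a ^^^ b) = false) (e : p x = true) :
    (Y.find? p).getD 0 ∈ Y ∧ p ((Y.find? p).getD 0) = true := by
  by_contra c
  have : ∀ y ∈ Y, p y = false := fun y hy => by
    by_contra a
    exact c (piv hy (by simpa using a))
  clear c
  suffices p x = false by simp [this] at e
  clear e
  induction h with
  | zero => exact h0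
  | step hy _ ih => exact hp _ _ (this _ hy) ih

theorem exists_ker {ι : Type} {ψ : ι → ℕ → Bool} {I : List ι} (hψ : ∀ i ∈ I, Af (ψ i)) {n : ℕ}
    (hn : I.length < n) : ∃ x < 2 ^ n, x ≠ 0 ∧ ∀ i ∈ I, ψ i x = false := by
  obtain ⟨a, b, hab, e⟩ := Fintype.exists_ne_map_eq_of_card_lt
    (fun (m : Fin (2 ^ n)) (i : Fin I.length) => ψ I[i] m)
    (by simpa using Nat.pow_lt_pow_right one_lt_two hn)
  refine ⟨a ^^^ b, Nat.xor_lt_two_pow a.2 b.2, fun c => hab (Fin.ext (Nat.xor_eq_zero_iff.1 c)),
    fun i hi => ?_⟩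
  obtain ⟨j, hj, rfl⟩ := List.getElem_of_mem hi
  have := congrFun e ⟨j, hj⟩
  simp only [Fin.getElem_fin] at this
  rw [hψ _ hi, this, Bool.xor_self]

end Pool.Agent.P.MP_7a71fe_lc.LD
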