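import Pool.Agent.P.MP_7a71fe_lc.LD.Time
import Pool.Agent.P.MP_7a71fe_lc.LD.BH
import Pool.Agent.P.MP_7a71fe_lc.LD.Defs

/-! Sets complete for exponential time under reductions of bounded degree are isomorphic. -/

namespace Pool.Agent.P.MP_7a71fe_lc.LD

open Pool.Agent.Lib.Helper47 Pool.Agent.P.MP_7a71fe_lc.AC
open Pool.Agent.P.MP_ba7db8_lc hiding idx

/-- The low bits of a number. -/
def low (N u : ℕ) : Str := (List.range N).map u.testBit

theorem low_getD (N u i : ℕ) : (low N u).getD i false = (decide (i < N) && u.testBit i) := by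
  by_cases h : i < N <;> simp [low, h]

/-- The string with code `c`, scale `k` and point `u`. -/
def zz (c : Str) (k N u : ℕ) : Str := pair c (pair (List.replicate k true) (low N u))

theorem length_zz (c : Str) (k N u : ℕ) : (zz c k N u).length = 2 * c.length + 2 * k + N + 2 := by
  simp [zz, length_pair, low]; omega

theorem deg_zz (c : Str) (k N i : ℕ) : Deg 2 fun u => (zz c k N u).getD i false := by
  have e : ∀ u, zz c k N u = pair c (pair (List.replicate k true) []) ++ low N u := fun u => by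
    simp [zz, pair]
  simp only [e]
  generalize pair c _ = P
  rcases lt_or_ge i P.length with h | h
  · simpa only [List.getD_append _ _ _ _ h] using (deg_const _).succ
  · simp only [List.getD_append_right _ _ _ _ h, low_getD]
    exact Af.deg fun a b => by rw [Nat.testBit_xor, Bool.and_xor_distrib_left]

variable (φ : Str → Str) (d : ℕ) (c : Str) (k N : ℕ)

def ff (j u : ℕ) : Bool := (φ (zz c k N u)).getD j false

def mm : ℕ := (φ (zz c k N 0)).length

def co : List Cd × ℕ := core (mm φ c k N) k (sums (d + 1) (units k)) (d + 1) (ff φ c k N)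

/-- The embedding. -/
def en (x : Str) : Str := zz c k N (pnt (co φ d c k N).1 (idx x))

/-- The decoder. -/
def de (y : Str) : Str := str (dcd (ff φ c k N) (mm φ c k N) (sums (d + 1) (units k))
  (co φ d c k N).1 (y.getD · false))

/-- The number of coordinates needed. -/
def nn : ℕ := Nm ((sums (d + 1) (units k)).length * (sums (d + 1) (units k)).length) (d + 1)

section
variable {α : Type} [Enc α] {φ} (hφ : PT φ) {c : α → Str} {k N : α → ℕ} (hc : PT c) (hk : PT k)
  (hk' : PS k) (hN : PT N) (hN' : PS N)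

include hN hN' in
theorem pt_low {u : α → ℕ} (hu : PT u) : PT fun a => low (N a) (u a) :=
  PT.map (by fun_prop) (PT.range hN hN')

include hk hk' in
theorem pt_nn : PT (fun a => nn d (k a)) ∧ PS fun a => nn d (k a) := by
  have h := (pt_sums (d + 1)).comp (pt_units hk hk')
  exact ⟨pt_Nm _ (by fun_prop), pb_Nm _ ((ps_length h).mul (ps_length h))⟩

include hc hk hk' hN hN'

theorem pt_zz {u : α → ℕ} (hu : PT u) : PT fun a => zz (c a) (k a) (N a) (u a) :=
  pt_pair hc (pt_pair (PT.replicate hk hk' (PT.const _)) (pt_low hN hN' hu))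

include hφ

theorem pt_ff : PT fun p : α × ℕ × ℕ => ff φ (c p.1) (k p.1) (N p.1) p.2.1 p.2.2 :=
  PT.getD (hφ.comp (pt_zz (by fun_prop) (by fun_prop) (ps_fst hk') (by fun_prop) (ps_fst hN')
    (by fun_prop))) (by fun_prop) (PT.const _)

theorem pt_mm : PT (fun a => mm φ (c a) (k a) (N a)) ∧ PS fun a => mm φ (c a) (k a) (N a) :=
  have h := hφ.comp (pt_zz hc hk hk' hN hN' (PT.const 0))
  ⟨PT.length h, ps_length h⟩

theorem pt_co : PT fun a => co φ d (c a) (k a) (N a) :=
  pt_core _ (pt_ff hφ hc hk hk' hN hN') ((pt_sums _).comp (pt_units hk hk'))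
    (pt_mm hφ hc hk hk' hN hN').1 (pt_mm hφ hc hk hk' hN hN').2 hk hk'

theorem pt_en {x : α → Str} (hx : PT x) : PT fun a => en φ d (c a) (k a) (N a) (x a) :=
  pt_zz hc hk hk' hN hN' (pt_pnt (PT.fst (pt_co d hφ hc hk hk' hN hN')) (pt_idx hx))

theorem pt_de {y : α → Str} (hy : PT y) : PT fun a => de φ d (c a) (k a) (N a) (y a) :=
  pt_str (pt_dcd (pt_ff hφ hc hk hk' hN hN') ((pt_sums _).comp (pt_units hk hk'))
    (pt_mm hφ hc hk hk' hN hN').1 (pt_mm hφ hc hk hk' hN hN').2
    (PT.fst (pt_co d hφ hc hk hk' hN hN')) (by fun_prop))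

end

theorem LowDeg.deg {φ : Str → Str} (h : LowDeg φ) : ∃ d, ∀ c k N,
    (∀ u, (φ (zz c k N u)).length = mm φ c k N) ∧ ∀ j, Deg (d + 2) (ff φ c k N j) := by
  obtain ⟨d, h⟩ := h
  refine ⟨d, fun c k N => ?_⟩
  obtain ⟨P, h1, h2⟩ := h (2 * c.length + 2 * k + N + 2)
  refine ⟨fun u => by simp [mm, h2 _ (length_zz ..)], fun j => ?_⟩
  unfold ff
  simp only [h2 _ (length_zz ..)]
  rcases lt_or_ge j P.length with e | e
  · simpa [e] using (deg_poly (h1 _ (List.getElem_mem e)) (deg_zz c k N)).succ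
  · exact deg_false fun u => List.getD_eq_default _ _ (by simpa using e)

theorem inEXP_diag {K : Set Str} (h : InEXP K) :
    InEXP {z | ((U (dec (fstP z)) z (2 ^ z.length)).getD []).take z.length ∈ K} := by
  obtain ⟨e, p, h⟩ := U_exp h
  obtain ⟨q, a, b⟩ : ∃ q : Polynomial ℕ, (∀ n, n ≤ q.eval n) ∧ ∀ n, p.eval n ≤ q.eval n :=
    ⟨p + .X, by simp, by simp⟩
  have h1 : PT fun x : Pad Str (fun x => 2 ^ q.eval x.length) => x.val := PT.padVal PT.id
  have h2 : Lg fun x : Pad Str (fun x => 2 ^ q.eval x.length) => x.val.length :=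
    PB.mono PS.padLen fun _ => Nat.pow_le_pow_right two_pos (a _)
  refine inEXP_of q a ((PTP.eq (pt_U (PT.const e) (PT.take (PT.length h1)
    (PT.optGetD (pt_U (pt_dec (pt_fstP h1)) h1 (h2.pt (PT.length h1)) h2) (PT.const [])))
    PT.padLen PS.padLen) (PT.const (some [true]))).of_iff fun x => h _ _ ?_)
  exact Nat.pow_le_pow_right two_pos ((eval_mono p (List.length_take_le _ _)).trans (b _))

theorem emb {K A : Set Str} (hK : InEXP K) {yes no : Str} (hy : yes ∈ K) (hn : no ∉ K)
    (hA : LDComplete A) : Emb K A := by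
  obtain ⟨φ, ⟨hφ, hr⟩, hd⟩ := hA.2 _ (inEXP_diag hK)
  replace hφ := hφ.pt
  obtain ⟨d, hd⟩ := hd.deg
  let G : Str → Str := fun z =>
    if (co φ d (fstP z) (fstP (sndP z)).length (sndP (sndP z)).length).2 = 0 then
      de φ d (fstP z) (fstP (sndP z)).length (sndP (sndP z)).length (φ z)
    else if sndP (sndP z) = low (sndP (sndP z)).length
      (co φ d (fstP z) (fstP (sndP z)).length (sndP (sndP z)).length).2 then yes else no
  have hG : PT G := by
    have a1 : PT fun z => fstP (sndP z) := by fun_prop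
    have a2 : PT fun z => sndP (sndP z) := by fun_prop
    have a3 := PT.snd (pt_co d hφ (pt_fstP PT.id) (PT.length a1) (ps_length a1) (PT.length a2)
      (ps_length a2))
    exact pt_iteq a3 (PT.const 0) (pt_de d hφ (pt_fstP PT.id) (PT.length a1) (ps_length a1)
      (PT.length a2) (ps_length a2) hφ) (pt_iteq a2 (pt_low (PT.length a2) (ps_length a2) a3)
      (PT.const _) (PT.const _))
  obtain ⟨e, q, he⟩ := U_pt hG
  obtain ⟨N0, h0⟩ := poly_lt (g := q.eval) ⟨q, fun _ => le_rfl⟩
  let N : ℕ → ℕ := fun k => nn d k + N0 + yes.length + no.length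
  let m : ℕ → ℕ := fun k => mm φ e.enc k (N k)
  have h1 : ∀ k u, (G (zz e.enc k (N k) u)).take (zz e.enc k (N k) u).length ∈ K ↔
      φ (zz e.enc k (N k) u) ∈ A := fun k u => by
    rw [← hr, Set.mem_ofPred_eq, show fstP (zz e.enc k (N k) u) = _ from fstP_pair _ _, dec_enc,
      he _ _ (h0 _ (by rw [length_zz]; simp only [N]; omega)).le, Option.getD_some]
  have h2 : ∀ k u, G (zz e.enc k (N k) u) = if (co φ d e.enc k (N k)).2 = 0 then
      de φ d e.enc k (N k) (φ (zz e.enc k (N k) u)) else
      if low (N k) u = low (N k) (co φ d e.enc k (N k)).2 then yes else no := fun k u => by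
    simp [G, zz, low]
  have h3 := fun k => core_spec (M := m k) (k := k) (T := sums (d + 1) (units k))
    (fun t ht => (sp_sums ht).lt fun _ => units_lt) fun j _ => (hd e.enc k (N k)).2 j
  have h4 : ∀ k, (co φ d e.enc k (N k)).2 = 0 := fun k => by_contra fun c => by
    have a1 := h1 k (co φ d e.enc k (N k)).2
    have a2 := h1 k 0
    obtain ⟨i, hi⟩ := Nat.exists_testBit_of_ne_zero c
    have a3 : i < N k := lt_of_not_ge fun a => Bool.false_ne_true
      ((Nat.testBit_lt_two_pow ((h3 k).1.trans_le (Nat.pow_le_pow_right two_pos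
        (le_trans (by simp only [N, nn]; omega) a)))).symm.trans hi)
    rw [h2, if_neg c, if_pos rfl, List.take_of_length_le (by
      rw [length_zz]; simp only [N]; omega)] at a1
    rw [h2, if_neg c, if_neg fun a => by
        simpa [-List.getD_eq_getElem?_getD, low_getD, a3, hi] using congrArg (·.getD i false) a,
      List.take_of_length_le (by rw [length_zz]; simp only [N]; omega)] at a2
    refine hn (a2.2 (List.ext_getElem ((hd _ _ _).1 _) (fun j b b' => ?_) ▸ a1.1 hy))
    exact (List.getD_eq_getElem _ _ b).symm.trans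
      (((h3 k).2.2 j b').trans (List.getD_eq_getElem _ _ b'))
  have h5 : ∀ k t, t < 2 ^ k → de φ d e.enc k (N k)
      (φ (zz e.enc k (N k) (pnt (co φ d e.enc k (N k)).1 t))) = str t := fun k t ht =>
    congrArg str (dcd_spec (fun j _ => (hd e.enc k (N k)).2 j) ht ((h3 k).2.1 (h4 k))
      fun _ _ => rfl)
  have h6 : ∀ k, k ≤ m k := fun k => by
    have := Fintype.card_le_of_injective (β := List.Vector Bool (m k)) (fun t : Fin (2 ^ k) =>
      ⟨_, (hd e.enc k (N k)).1 (pnt (co φ d e.enc k (N k)).1 t)⟩) fun s t a => Fin.ext (by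
        have b := h5 k s s.2
        rw [Subtype.mk.inj a, h5 k t t.2] at b
        simpa using congrArg idx b.symm)
    rwa [Fintype.card_fin, card_vector, Fintype.card_bool,
      Nat.pow_le_pow_iff_right one_lt_two] at this
  let τ : ℕ → ℕ := fun n => n - ((List.range (n + 1)).find? fun i => m (n - i) == n).getD 0
  have h7 : ∀ k, k ≤ τ (m k) ∧ m (τ (m k)) = m k := fun k => by
    have := h6 k
    simp only [τ]
    cases a : (List.range (m k + 1)).find? fun i => m (m k - i) == m k with
    | none => simpa [Nat.sub_sub_self this] using List.find?_eq_none.1 a (m k - k) (by simp)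
    | some i =>
      obtain ⟨a1, -, a2⟩ := List.find?_range_eq_some.1 a
      refine ⟨le_of_not_gt fun b => ?_, by simpa using a1⟩
      simpa [Nat.sub_sub_self this] using a2 (m k - k) (by simp at b; omega)
  have p1 : ∀ {α : Type} [Enc α] {k : α → ℕ}, PT k → PS k → PT (fun a => N (k a)) ∧
      PS fun a => N (k a) := fun hk hk' =>
    ⟨by have := (pt_nn d hk hk').1; simp only [N]; fun_prop,
      (((pt_nn d hk hk').2.add (PB.const _)).add (PB.const _)).add (PB.const _)⟩
  have p2 : ∀ {α : Type} [Enc α] {k : α → ℕ}, PT k → PS k → PT (fun a => m (k a)) ∧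
      PS fun a => m (k a) := fun hk hk' =>
    pt_mm hφ (PT.const _) hk hk' (p1 hk hk').1 (p1 hk hk').2
  have p3 : ∀ {n : Str → ℕ}, PT n → PS n → PT (fun a => τ (n a)) ∧ PS fun a => τ (n a) :=
    fun hn hn' => ⟨PT.sub hn (PT.optGetD (PT.find? (PT.beq (p2 (by fun_prop) ((ps_fst hn').mono
      fun _ => Nat.sub_le _ _)).1 (by fun_prop)) (PT.range (by fun_prop) (hn'.add (PB.const 1))))
      (PT.const 0)), hn'.mono fun _ => Nat.sub_le _ _⟩
  have p4 := p2 (k := fun x : Str => x.length + 1) (by fun_prop)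
    ((ps_length PT.id).add (PB.const 1))
  obtain ⟨p5, p6⟩ := p3 p4.1 p4.2
  obtain ⟨p7, p8⟩ := p3 (PT.length PT.id) (ps_length PT.id)
  have h8 : ∀ x : Str, idx x < 2 ^ τ (m (x.length + 1)) := fun x =>
    (idx_lt x).trans_le (Nat.pow_le_pow_right two_pos (h7 _).1)
  refine ⟨_, _, hφ.comp (pt_en d hφ (PT.const e.enc) p5 p6 (p1 p5 p6).1 (p1 p5 p6).2 PT.id),
    pt_de d hφ (PT.const e.enc) p7 p8 (p1 p7 p8).1 (p1 p7 p8).2 PT.id, fun x => ?_, fun x => ?_⟩
  · rw [en, ((hd _ _ _).1 _).trans (h7 _).2, h5 _ _ (h8 x)]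
    exact ⟨str_idx x, h6 _⟩
  · have := (h7 (x.length + 1)).1
    rw [en, ← h1, h2, if_pos (h4 _), h5 _ _ (h8 x), str_idx,
      List.take_of_length_le (by rw [length_zz]; omega)]

theorem LDComplete.nontrivial {A : Set Str} (h : LDComplete A) : ∃ y n, y ∈ A ∧ n ∉ A := by
  obtain ⟨f, hf, -⟩ := h.2 _ (inEXP_of .X (L := {[]}) (by simp)
    (PTP.eq (PT.padVal PT.id) (PT.const _)))
  exact ⟨_, _, (hf.2 []).1 rfl, fun c => by simpa using (hf.2 [true]).2 c⟩

theorem exists_complete : ∃ A, LDComplete A := by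
  have h1 : PT fun x : Pad Str (fun x => 2 ^ (Polynomial.X (R := ℕ)).eval x.length) => x.val :=
    PT.padVal PT.id
  refine ⟨{z | U (dec (fstP z)) (sndP (sndP z)) (2 ^ z.length) = some [true]},
    inEXP_of .X (by simp) ((PTP.eq (pt_U (pt_dec (pt_fstP h1)) (pt_sndP (pt_sndP h1))
      PT.padLen PS.padLen) (PT.const (some [true]))).of_iff fun x => by simp), fun L hL => ?_⟩
  obtain ⟨e, p, h⟩ := U_exp hL
  refine ⟨fun x => pair e.enc (pair (List.replicate (p.eval x.length) false) x),
    ⟨inFP_of_pt (pt_pair (PT.const _) (pt_pair (PT.replicate (pt_eval p (PT.length PT.id))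
      ((ps_length PT.id).eval p) (PT.const _)) PT.id)), fun x => ?_⟩, 1, fun n =>
    ⟨(pair e.enc (pair (List.replicate (p.eval n) false) [])).map (fun b => if b then 1 else 0) ++
      (List.range n).map .X, ?_, fun x hx => ?_⟩⟩
  · simp only [Set.mem_ofPred_eq, fstP_pair, sndP_pair, dec_enc]
    exact (h _ _ (Nat.pow_le_pow_right two_pos (by simp [length_pair]; omega))).symm
  · simp only [List.forall_mem_append, List.forall_mem_map]
    exact ⟨fun b _ => by cases b <;> simp, fun i _ => by simp⟩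
  · subst hx
    rw [List.map_append, List.map_map, List.map_map, List.map_congr_left (g := id)
      fun b _ => by cases b <;> simp, List.map_congr_left (g := (x.getD · false))
      fun i _ => by cases a : x.getD i false <;> simp [-List.getD_eq_getElem?_getD, a]]
    rw [show (List.range x.length).map (x.getD · false) = x from List.ext_getElem (by simp)
      fun i a b => by simp [b]]
    simp [pair]

theorem main : (∃ A, LDComplete A) ∧ ∀ A B, LDComplete A → LDComplete B → Iso A B :=
  ⟨exists_complete, fun _ _ hA hB =>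
    let ⟨_, _, a, a'⟩ := hA.nontrivial
    let ⟨_, _, b, b'⟩ := hB.nontrivial
    iso_of_emb (emb hA.1 a a' hB) (emb hB.1 b b' hA)⟩

end Pool.Agent.P.MP_7a71fe_lc.LD
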