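import Pool.Agent.P.MP_7a71fe_lc.LD.Circ

/-! The restriction is found in polynomial time. -/

namespace Pool.Agent.P.MP_7a71fe_lc.LD

open Pool.Agent.Lib.Helper47 Pool.Agent.P.MP_ba7db8_lc Pool.Agent.P.MP_7a71fe_lc.AC

variable {α β γ : Type} [Enc α] [Enc β] [Enc γ]

@[fun_prop] theorem pt_mem [BEq β] [LawfulBEq β] {f : α → β} {l : α → List β} (hf : PT f)
    (hl : PT l) : PT fun a => decide (f a ∈ l a) := PT.decMem hf hl

@[fun_prop] theorem pt_nmem [BEq β] [LawfulBEq β] {f : α → β} {l : α → List β} (hf : PT f)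
    (hl : PT l) : PT fun a => decide (f a ∉ l a) := PT.decNot (PT.decMem hf hl)

@[fun_prop] theorem pt_le {f g : α → ℕ} (hf : PT f) (hg : PT g) :
    PT fun a => decide (f a ≤ g a) := PT.decLe hf hg

@[fun_prop] theorem pt_itemem [BEq β] [LawfulBEq β] {f : α → β} {l : α → List β} {x y : α → γ}
    (hf : PT f) (hl : PT l) (hx : PT x) (hy : PT y) :
    PT fun a => if f a ∈ l a then x a else y a := PT.ite (PT.decMem hf hl) hx hy

@[fun_prop] theorem pt_pot {n : α → ℕ} {Hs : α → List (List ℕ)} {S : α → List ℕ} (hn : PT n)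
    (hH : PT Hs) (hS : PT S) : PT fun a => pot (n a) (Hs a) (S a) :=
  PT.sum (PT.map (PT.pow (by fun_prop) (by fun_prop) ((ps_fst (ps_length hS)).mono
    fun _ => List.countP_le_length)) hH)

theorem pt_pick {n : α → ℕ} {Hs : α → List (List ℕ)} {V : α → List ℕ} (hn : PT n) (hb : PS n)
    (hH : PT Hs) (hV : PT V) : PT fun a => pick (n a) (Hs a) (V a) := by
  refine (PT.foldl_add (f := fun a S _ => pickStep (n a) (Hs a) (V a) S)
    (by unfold pickStep; fun_prop) (PT.range hn hb) (PT.const []) _ hV.size_le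
    fun a S _ _ => ?_).of_eq fun a => by rw [PT.foldl_const_eq_iterate, List.length_range, pick]
  rw [pickStep]
  cases e : (V a).find? _ with
  | none => simp
  | some v =>
    have := size_lt_of_mem (List.mem_of_find?_eq_some e)
    simp only [Option.toList_some, List.singleton_append, size_cons]
    omega

@[fun_prop] theorem pt_vars : PT vars := by
  unfold vars
  exact PT.flatMap (PT.map (g := fun _ => Prod.fst) (by fun_prop) (by fun_prop)) PT.id

@[fun_prop] theorem pt_pot2 (W : ℕ) {Ps : α → List (List Tm)} {A : α → Tm} (hP : PT Ps)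
    (hA : PT A) : PT fun a => pot2 W (Ps a) (A a) :=
  PT.sum (PT.map (pt_prod (PT.map (PT.sub (PT.const _) (PT.mul (PT.pow (PT.const 2) (by fun_prop)
    ((PB.const W).mono fun _ => Nat.sub_le _ _)) (pt_prod (PT.map (by unfold wt; fun_prop)
      (by fun_prop))))) (by fun_prop))) hP)

@[fun_prop] theorem pt_asg (W : ℕ) {Ps : α → List (List Tm)} {U : α → List ℕ} {A : α → Tm}
    (hP : PT Ps) (hU : PT U) (hA : PT A) : PT fun a => asg W (Ps a) (U a) (A a) :=
  PT.foldl_add (by fun_prop) hU hA _ (hU.size_le.add (PB.const 4)) fun a t x hx => by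
    have := size_lt_of_mem hx
    have := size_bool (decide (pot2 W (Ps a) ((x, true) :: t) ≤ pot2 W (Ps a) t))
    rw [size_cons, size_pair]
    omega

@[fun_prop] theorem pt_fam : PT fam :=
  PT.foldl_add (by fun_prop) PT.id (PT.const _) _ PB.self fun a t x hx => by
    have := size_lt_of_mem hx
    cases x.all (·.1 ∉ vars t) <;> simp
    omega

@[fun_prop] theorem pt_rs {k x : α → ℕ → Bool} {F : α → List Tm}
    (hk : PT fun p : α × ℕ => k p.1 p.2) (hx : PT fun p : α × ℕ => x p.1 p.2) (hF : PT F) :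
    PT fun a => rs (k a) (x a) (F a) := by unfold rs; fun_prop

@[fun_prop] theorem pt_yv {B : α → List ℕ} {m i : α → ℕ} {A : α → Tm} (hB : PT B) (hm : PT m)
    (hA : PT A) (hi : PT i) : PT fun a => yv (B a) (m a) (A a) (i a) := by unfold yv; fun_prop

section
variable (w c : ℕ) {n m : α → ℕ} {r : α → Rs} {Fs : α → List (List Tm)} {F : α → List Tm}

@[fun_prop] theorem pt_top (hn : PT n) (hF : PT F) : PT fun a => top w c (n a) (F a) := by
  unfold top; fun_prop

@[fun_prop] theorem pt_big (hn : PT n) (hF : PT F) : PT fun a => big w c (n a) (F a) := by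
  unfold big; fun_prop

@[fun_prop] theorem pt_bv (hn : PT n) (hr : PT r) (hF : PT F) :
    PT fun a => bv w c (n a) (r a) (F a) := by unfold bv; fun_prop

@[fun_prop] theorem pt_br (hn : PT n) (hr : PT r) (hF : PT F) (hm : PT m) :
    PT fun a => br w c (n a) (r a) (F a) (m a) := by unfold br; fun_prop

@[fun_prop] theorem pt_brs (hn : PT n) (hr : PT r) (hF : PT Fs) :
    PT fun a => brs w c (n a) (r a) (Fs a) := by unfold brs; fun_prop

theorem pt_nx (hn : PT n) (hb : PS n) (hr : PT r) (hF : PT Fs) :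
    PT fun a => nx w c (n a) (r a) (Fs a) := by
  have : PT fun a => lv w c (n a) (r a) (Fs a) := pt_pick hn hb (by fun_prop) (by fun_prop)
  have h : ∀ {V : α → List ℕ}, PT V → PT fun a => asg (w + 1) (((Fs a).filter (big w c (n a))).map
      fun F => pats w c (n a) F (V a)) ((r a).1.filter (· ∉ V a)) (r a).2 := fun hV => by
    unfold pats
    fun_prop
  exact PT.prodMk this (h this)

theorem pt_sw (hn : PT n) (hb : PS n) (hr : PT r) (hF : PT Fs) :
    PT (fun a => sw (n a) w c (r a) (Fs a)) ∧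
      PT fun p : α × List Tm => sp (n p.1) w c (r p.1) (Fs p.1) p.2 := by
  induction w generalizing c r Fs with
  | zero => exact ⟨hr, PT.const _⟩
  | succ w ih =>
    have h1 := PT.pow hn (PT.const (4 ^ w)) (PB.const _)
    have h2 := pt_nx w c h1 (hb.pow _) hr hF
    obtain ⟨h3, h4⟩ := ih (4 * c + 1) h2 (pt_brs w c h1 h2 hF)
    have h5 := h1.comp (PT.fst (PT.id (α := α × List Tm)))
    have h6 := h2.comp (PT.fst (PT.id (α := α × List Tm)))
    exact ⟨h3, PT.append (pt_bv w c h5 h6 (PT.snd PT.id)) (PT.flatMap (h4.comp (PT.prodMk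
      (PT.fst (PT.fst PT.id)) (pt_br w c (h5.comp (PT.fst PT.id)) (h6.comp (PT.fst PT.id))
        (PT.snd (PT.fst PT.id)) (PT.snd PT.id)))) (PT.const _))⟩

end

theorem pt_evc (D : ℕ) : ∀ {α : Type} [Enc α] {y : α → ℕ → Bool} {C : α → Str},
    (PT fun p : α × ℕ => y p.1 p.2) → PT C → PT fun a => evc (y a) D (C a) := by
  induction D with
  | zero => intro α _ y C hy hC; unfold evc; fun_prop
  | succ D ih =>
    exact fun hy hC => PT.not (PT.all (ih (by fun_prop) (PT.snd PT.id)) (PT.blocks.comp hC))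

theorem pt_dn (j D : ℕ) {o : α → Rs × (Str → List ℕ)} (h1 : PT fun a => (o a).1)
    (h2 : PT fun p : α × Str => (o p.1).2 p.2) : PT fun p : α × Str => dn j D (o p.1) p.2 := by
  have h3 : PT fun p : (α × Str) × Str => (o p.1.1).1.1.filter (· ∈ (o p.1.1).2 p.2) :=
    PT.filter (pt_mem (PT.snd PT.id) (h2.comp (g := fun p : ((α × Str) × Str) × ℕ =>
      (p.1.1.1, p.1.2)) (by fun_prop))) (PT.fst (h1.comp (by fun_prop)))
  refine PT.flatMap (PT.map (PT.map (PT.prodMk (PT.snd PT.id) (PT.testBit (by fun_prop) (PT.idxOf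
    (PT.snd PT.id) (h3.comp (PT.fst (PT.fst PT.id)))))) (h3.comp (PT.fst PT.id))) (PT.filter
    (PT.not (pt_evc D (pt_yv (h3.comp (PT.fst (PT.fst PT.id))) (by fun_prop)
      (PT.snd (h1.comp (by fun_prop))) (by fun_prop)) (by fun_prop))) (PT.const _)))
    (PT.blocks.comp (PT.snd PT.id))

theorem pt_cc (c D : ℕ) {n : α → ℕ} {r : α → Rs} {Cs : α → List Str} (hn : PT n) (hb : PS n)
    (hr : PT r) (hC : PT Cs) : PT (fun a => (cc c (r a) D (n a) (Cs a)).1) ∧
      PT fun p : α × Str => (cc c (r p.1) D (n p.1) (Cs p.1)).2 p.2 := by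
  induction D generalizing n Cs with
  | zero => exact ⟨hr, by unfold cc; fun_prop⟩
  | succ D ih =>
    obtain ⟨h1, h2⟩ := ih (PT.pow hn (PT.const (4 ^ (JE c D).1)) (PB.const _)) (hb.pow _)
      (PT.flatMap (g := fun _ => blocks) (PT.blocks.comp (PT.snd PT.id)) hC)
    have h3 := pt_dn (JE c D).1 D h1 h2
    obtain ⟨h4, h5⟩ := pt_sw (JE c D).1 ((JE c D).2 * c) hn hb h1
      (PT.map (g := fun a => dn (JE c D).1 D (cc c (r a) D (n a ^ 4 ^ (JE c D).1)
        ((Cs a).flatMap blocks))) h3 hC)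
    exact ⟨h4, h5.comp (PT.prodMk (PT.fst PT.id) h3)⟩

end Pool.Agent.P.MP_7a71fe_lc.LD
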