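import Pool.Agent.P.MP_7a71fe_lc.LD.Gen
import Pool.Agent.P.MP_7a71fe_lc.LD.TimeC

/-! Sets complete for exponential time under polynomials in constant-depth formulas are
isomorphic. -/

namespace Pool.Agent.P.MP_7a71fe_lc.LD

open Pool.Agent.Lib.Helper47 Pool.Agent.P.MP_7a71fe_lc.AC
open Pool.Agent.P.MP_ba7db8_lc hiding idx

/-- The subcube of the strings of length `|P| + N` that start with `P`. -/
def cube (P : Str) (N : ℕ) : Rs := ((List.range N).map (P.length + ·),
  ((List.range P.length).filter (P.getD · false)).map (·, true))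

theorem wf_cube (P : Str) (N : ℕ) : Wf (cube P N) :=
  ⟨List.nodup_range.map (add_right_injective _), List.forall_mem_map.2 fun i hi => by
    have := List.mem_range.1 (List.mem_filter.1 hi).1
    simp [cube]
    omega⟩

theorem getD_cube {P : Str} {N : ℕ} {y : ℕ → Bool} (h : Dom (cube P N) y) :
    ((P ++ (List.range N).map fun i => y (P.length + i)).getD · false) = y := funext fun i => by
  rcases lt_or_ge i P.length with a | a
  · rw [List.getD_append _ _ _ _ a, h i (by simp [cube]; omega)]
    simp [cube, a]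
  · obtain ⟨j, rfl⟩ := Nat.exists_eq_add_of_le a
    rw [List.getD_append_right _ _ _ _ a, Nat.add_sub_cancel_left]
    rcases lt_or_ge j N with b | b
    · simp [b]
    · rw [h _ (by simp [cube]; omega), List.getD_eq_default _ _ (by simpa using b)]
      simp [cube]

variable (u : Str → Str) (D e d : ℕ) (c : Str) (k : ℕ)

def pf : Str := pair c (pair (List.replicate k true) [])

def NN : ℕ := (nn d k + k) ^ (JE e D).2

def rr : Rs := (cc e (cube (pf c k) (NN D e d k)) D (nn d k + k)
  (blocks (u (List.replicate ((pf c k).length + NN D e d k) true)))).1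

def ww (t : ℕ) : Str := pf c k ++ (List.range (NN D e d k)).map fun i =>
  yv (rr u D e d c k).1 t (rr u D e d c k).2 ((pf c k).length + i)

theorem JE_pos : (JE e D).2 ≠ 0 := by
  induction D with
  | zero => exact one_ne_zero
  | succ D ih => exact mul_ne_zero (by positivity) ih

theorem PolyAC.easy {φ : Str → Str} (h : PolyAC φ) : ∃ d w, Easy φ d w := by
  obtain ⟨d₀, D, u, hu, h⟩ := h
  replace hu := hu.pt
  obtain ⟨q, hq⟩ := ps_length hu
  obtain ⟨a, e₀, ha⟩ := eval_le_pow q
  obtain ⟨e, he⟩ : ∃ e, e = 2 * e₀ + 1 := ⟨_, rfl⟩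
  obtain ⟨d, hd⟩ : ∃ d, d = d₀ * (JE e D).1 := ⟨_, rfl⟩
  refine ⟨d, ww u D e d, fun {α} _ c k t hc hk hk' ht => ?_, fun c => ?_⟩
  · have h1 : PT fun a => pf (c a) (k a) :=
      pt_pair hc (pt_pair (PT.replicate hk hk' (PT.const _)) (PT.const _))
    obtain ⟨h2, h3⟩ := pt_nn d hk hk'
    have h4 : PT fun a => NN D e d (k a) := PT.pow (PT.add h2 hk) (PT.const _) (PB.const _)
    have h5 : PS fun a => NN D e d (k a) := (h3.add hk').pow _
    have h6 := PT.range h4 h5
    have h9 : ∀ {P : α → Str} {N : α → ℕ}, PT P → (PT fun a => List.range (N a)) →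
        (PT fun a => List.range (P a).length) → PT fun a => cube (P a) (N a) := fun _ _ _ => by
      unfold cube
      fun_prop
    have h8 : PT fun a => rr u D e d (c a) (k a) := (pt_cc _ D (PT.add h2 hk) (h3.add hk')
      (h9 h1 h6 (PT.rangeLength h1)) (PT.blocks.comp (hu.comp (PT.replicate
        (PT.add (PT.length h1) h4) ((ps_length h1).add h5) (PT.const _))))).1
    exact PT.append h1 (PT.map (pt_yv (PT.fst (h8.comp (PT.fst PT.id))) (by fun_prop)
      (PT.snd (h8.comp (PT.fst PT.id))) (PT.add (PT.length (h1.comp (PT.fst PT.id)))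
        (PT.snd PT.id))) h6)
  obtain ⟨N, hN⟩ := cc_spec e D
  refine ⟨N + a + (2 * c.length + 18), fun k hk => ?_⟩
  obtain ⟨C, P, h1, hP, h2⟩ := h ((pf c k).length + NN D e d k)
  have h3 : k ≤ NN D e d k := (Nat.le_add_left _ _).trans (Nat.le_self_pow (JE_pos _ _) _)
  have h4 : (pf c k).length = 2 * c.length + 2 * k + 2 := by simp [pf, length_pair]; omega
  obtain ⟨b1, b2, b3, b4⟩ := hN (nn d k + k) (by omega) _
    (blocks (u (List.replicate ((pf c k).length + NN D e d k) true)))
    (wf_cube (pf c k) (NN D e d k)) (by simp [cube, NN]) (by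
      refine (tot_blocks _).trans ((hq _).trans ((eval_mono q (size_bits_le _)).trans
        ((ha _).trans ?_)))
      rw [← NN, List.length_replicate]
      generalize NN D e d k = N at *
      rw [he, pow_succ', pow_mul]
      exact Nat.mul_le_mul (by omega) (Nat.pow_le_pow_left (by nlinarith) _))
  rw [← rr] at b1 b2 b3 b4
  have b5 : ∀ t, Dom (rr u D e d c k) (yv (rr u D e d c k).1 t (rr u D e d c k).2) :=
    fun t i hi => if_neg hi
  have b6 : ∀ t, ((ww u D e d c k t).getD · false) = _ := fun t => getD_cube (b3 _ (b5 t))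
  have b7 : ∀ t, (ww u D e d c k t).length = (pf c k).length + NN D e d k := fun t => by simp [ww]
  have b8 : ∀ v, pf c k ++ v = pair c (pair (List.replicate k true) v) := fun v => by
    simp [pf, pair]
  refine ⟨fun t => ⟨by simp [ww, b8], by simp [ww, b8], by rw [b7]; omega,
    by simp [h2 _ (b7 _)]⟩, fun j => ?_, fun t ht a => ?_⟩
  · simp only [h2 _ (b7 _), ← funext (evc_code _ D), b6]
    rcases lt_or_ge j P.length with a | a
    swap
    · exact deg_false fun u => List.getD_eq_default _ _ (by simpa using a)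
    simp only [List.getD_eq_getElem?_getD (i := j), List.getElem?_map, List.getElem?_eq_getElem a,
      Option.map_some, Option.getD_some]
    refine (hd ▸ deg_poly' (hP _ (List.getElem_mem a)) fun i => ?_).succ
    rcases lt_or_ge i C.length with a | a
    swap
    · exact deg_false fun u => List.getD_eq_default _ _ (by simpa using a)
    obtain ⟨c1, c2⟩ := b4 (code D C[i]) (by
      rw [h1, blocks_code D C]
      exact List.mem_map_of_mem (List.getElem_mem a))
    simp only [List.getD_eq_getElem?_getD, List.getElem?_map, List.getElem?_eq_getElem a,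
      Option.map_some, Option.getD_some]
    refine (deg_dep (fun i => ?_) fun t t' => c2 _ _ (b5 t) (b5 t')).mono (by omega)
    unfold yv
    split_ifs
    exacts [Af.deg fun _ _ => Nat.testBit_xor .., (deg_const _).succ]
  · refine Nat.eq_of_testBit_eq fun j => ?_
    rcases lt_or_ge j (rr u D e d c k).1.length with b | b
    · have := congrFun ((b6 t).symm.trans (a ▸ b6 0)) (rr u D e d c k).1[j]
      simpa [yv, b1.1.idxOf_getElem] using this
    · simpa using Nat.testBit_lt_two_pow (ht.trans_le (Nat.pow_le_pow_right two_pos (by omega)))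

theorem PAComplete.emb {K A : Set Str} (hK : PAComplete K) (hA : PAComplete A) : Emb K A := by
  obtain ⟨f, hf, -⟩ := hK.2 _ (inEXP_of .X (L := {[]}) (by simp)
    (PTP.eq (PT.padVal PT.id) (PT.const _)))
  obtain ⟨φ, ⟨hφ, hr⟩, hd⟩ := hA.2 _ (inEXP_diag hK.1)
  obtain ⟨d, w, h⟩ := hd.easy
  exact h.emb hφ.pt ((hf.2 []).1 rfl) (fun c => by simpa using (hf.2 [true]).2 c) hr

theorem LowDeg.polyAC {f : Str → Str} (h : LowDeg f) : PolyAC f := by
  obtain ⟨d, h⟩ := h
  refine ⟨d, 0, fun x => (List.range x.length).flatMap fun i => pair (true :: i.bits) [],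
    inFP_of_pt (PT.flatMap (by fun_prop) (PT.rangeLength PT.id)), fun n => ?_⟩
  obtain ⟨P, h1, h2⟩ := h n
  refine ⟨(List.range n).map (·, true), P, ?_, h1, fun x hx => (h2 x hx).trans ?_⟩
  · simp only [List.length_replicate]
    induction List.range n with
    | nil => rfl
    | cons i l ih =>
      rw [List.flatMap_cons, ih]
      change _ = pair _ _
      simp [pair, code]
  · rw [show List.map (ev x 0) ((List.range n).map (·, true)) = x from List.map_map.trans
      (List.ext_getElem (by simp [hx]) fun i a b => by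
        rw [List.getElem_map, List.getElem_range]
        exact (beq_true _).trans (List.getD_eq_getElem _ _ b))]

theorem mainC : (∃ A, PAComplete A) ∧ ∀ A B, PAComplete A → PAComplete B → Iso A B :=
  ⟨exists_complete.imp fun _ h => ⟨h.1, fun L hL => (h.2 L hL).imp fun _ => .imp_right
    LowDeg.polyAC⟩, fun _ _ hA hB => iso_of_emb (hA.emb hB) (hB.emb hA)⟩

end Pool.Agent.P.MP_7a71fe_lc.LD
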