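import Pool.Agent.P.MP_7a71fe_lc.LD.Lin

/-! Two greedy choices guided by potentials. -/

namespace Pool.Agent.P.MP_7a71fe_lc.LD

/-- The potential for the choice of the free variables. -/
def pot (n : ℕ) (Hs : List (List ℕ)) (S : List ℕ) : ℕ :=
  (Hs.map fun H => n ^ S.countP (· ∈ H)).sum

def pickStep (n : ℕ) (Hs : List (List ℕ)) (V S : List ℕ) : List ℕ :=
  (V.find? fun v => decide (v ∉ S) &&
    decide (n * pot n Hs (v :: S) ≤ n * pot n Hs S + Hs.length)).toList ++ S

/-- Free variables that meet each given small set in few points. -/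
def pick (n : ℕ) (Hs : List (List ℕ)) (V : List ℕ) : List ℕ := (pickStep n Hs V)^[n] []

theorem cnt_le {A B : List ℕ} (h : A.Nodup) : A.countP (· ∈ B) ≤ B.countP (· ∈ A) := by
  simp only [List.countP_eq_length_filter]
  exact (List.subperm_of_subset (h.filter _) fun x => by simp +contextual).length_le

theorem pot_sum {n l : ℕ} {Hs : List (List ℕ)} {U : List ℕ} (S : List ℕ) (hU : U.Nodup)
    (h : ∀ H ∈ Hs, H.length ≤ l) :
    (U.map fun v => pot n Hs (v :: S)).sum ≤ (U.length + n * l) * pot n Hs S := by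
  induction Hs with
  | nil => simp [pot]
  | cons H Hs ih =>
    rw [List.forall_mem_cons] at h
    have h1 : (U.map fun v => n ^ (v :: S).countP (· ∈ H)).sum ≤
        (U.length + n * U.countP (· ∈ H)) * n ^ S.countP (· ∈ H) := by
      clear ih hU
      induction U with
      | nil => simp
      | cons v U ih =>
        rw [List.map_cons, List.sum_cons, List.countP_cons (l := S), List.countP_cons (l := U),
          List.length_cons]
        split_ifs <;> [rw [pow_succ]; rw [add_zero]] <;> nlinarith [Nat.zero_le (n ^ S.countP (· ∈ H))]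
    have h2 := ((cnt_le (B := H) hU).trans List.countP_le_length).trans h.1
    simp only [pot, List.map_cons, List.sum_cons, List.sum_map_add, mul_add] at ih ⊢
    exact Nat.add_le_add (h1.trans (by gcongr)) (ih h.2)

theorem pick_spec {n l t : ℕ} {Hs : List (List ℕ)} {V : List ℕ} (hV : V.Nodup)
    (h : ∀ H ∈ Hs, H.length ≤ l) (h1 : 2 * (n * (n * l)) + n ≤ V.length)
    (h2 : 2 * Hs.length < n ^ (t + 1)) (hn : 1 < n) : (pick n Hs V).Nodup ∧ pick n Hs V ⊆ V ∧
      (pick n Hs V).length = n ∧ ∀ H ∈ Hs, (pick n Hs V).countP (· ∈ H) ≤ t := by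
  have : ∀ i ≤ n, ∀ S, S = (pickStep n Hs V)^[i] [] → S.Nodup ∧ S ⊆ V ∧ S.length = i ∧
      n * pot n Hs S ≤ (n + i) * Hs.length := fun i => by
    induction i with
    | zero => rintro - _ rfl; simp [pot]
    | succ i ih =>
      rintro hi _ rfl
      rw [Function.iterate_succ_apply']
      obtain ⟨a1, a2, a3, a4⟩ := ih (by omega) _ rfl
      generalize (pickStep n Hs V)^[i] [] = S at *
      rw [pickStep]
      cases e : V.find? fun v => decide (v ∉ S) &&
        decide (n * pot n Hs (v :: S) ≤ n * pot n Hs S + Hs.length) with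
      | some v =>
        have := List.find?_some e
        simp only [Bool.and_eq_true, decide_eq_true_eq] at this
        exact ⟨List.nodup_cons.2 ⟨this.1, a1⟩, List.cons_subset.2
          ⟨List.mem_of_find?_eq_some e, a2⟩, congrArg (· + 1) a3, this.2.trans (by nlinarith)⟩
      | none =>
        have b1 := Nat.mul_le_mul_left n (pot_sum (n := n) S (hV.filter (· ∉ S)) h)
        have b2 := List.card_nsmul_le_sum ((V.filter (· ∉ S)).map fun v => n * pot n Hs (v :: S))
          (n * pot n Hs S + Hs.length + 1) (List.forall_mem_map.2 fun v hv => by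
            have := List.find?_eq_none.1 e v (List.mem_filter.1 hv).1
            simp [of_decide_eq_true (List.mem_filter.1 hv).2] at this
            omega)
        have b3 := List.length_eq_countP_add_countP (· ∈ S) (l := V)
        have b4 := (cnt_le (B := S) hV).trans List.countP_le_length
        rw [List.sum_map_mul_left, List.length_map, smul_eq_mul] at b2
        simp only [decide_eq_true_eq, List.countP_eq_length_filter (p := fun a => decide (a ∉ S))]
          at b3
        generalize (V.filter (· ∉ S)).length = u at *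
        have b5 : 2 * (n * (n * l)) + 1 ≤ u := by omega
        have b6 := Nat.mul_le_mul_left (n * l) (a4.trans (Nat.mul_le_mul_right _
          (show n + i ≤ 2 * n by omega)))
        have b7 := Nat.mul_le_mul_right (Hs.length + 1) b5
        exact absurd (b2.trans b1) (by nlinarith [Nat.zero_le (n * (n * l))])
  obtain ⟨a1, a2, a3, a4⟩ := this n le_rfl _ (rfl : pick n Hs V = _)
  refine ⟨a1, a2, a3, fun H hH => Nat.le_of_lt_succ ((Nat.pow_lt_pow_iff_right hn).1 ?_)⟩
  have := List.single_le_sum (fun _ _ => Nat.zero_le _) _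
    (List.mem_map_of_mem (f := fun H => n ^ (pick n Hs V).countP (· ∈ H)) hH)
  exact (this.trans (Nat.le_of_mul_le_mul_left (a4.trans_eq (by ring)) (by omega))).trans_lt h2

/-- A list of literals. -/
abbrev Tm : Type := List (ℕ × Bool)

def vars (P : List Tm) : List ℕ := P.flatMap (·.map Prod.fst)

def wt (A : Tm) (l : ℕ × Bool) : ℕ := if l ∈ A then 2 else if (l.1, !l.2) ∈ A then 0 else 1

def fac (W : ℕ) (A τ : Tm) : ℕ := 2 ^ W - 2 ^ (W - τ.length) * (τ.map (wt A)).prod

/-- The potential for the choice of the values. -/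
def pot2 (W : ℕ) (Ps : List (List Tm)) (A : Tm) : ℕ := (Ps.map fun P => (P.map (fac W A)).prod).sum

/-- Values that satisfy one term in each family. -/
def asg (W : ℕ) (Ps : List (List Tm)) (U : List ℕ) (A : Tm) : Tm :=
  U.foldl (fun A v => (v, decide (pot2 W Ps ((v, true) :: A) ≤ pot2 W Ps A)) :: A) A

theorem prod_avg {κ : Type} {l : List κ} {a b c : κ → ℕ} {p : κ → Prop}
    (h1 : ∀ x ∈ l, a x + b x = 2 * c x) (h2 : ∀ x, ¬ p x → a x = c x ∧ b x = c x)
    (h3 : l.Pairwise fun x y => ¬ p x ∨ ¬ p y) :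
    (l.map a).prod + (l.map b).prod = 2 * (l.map c).prod := by
  induction l with
  | nil => rfl
  | cons x l ih =>
    rw [List.forall_mem_cons] at h1
    rw [List.pairwise_cons] at h3
    simp only [List.map_cons, List.prod_cons]
    by_cases e : p x
    · have := fun y hy => h2 y ((h3.1 y hy).resolve_left (not_not.2 e))
      rw [List.map_congr_left fun y hy => (this y hy).1, List.map_congr_left (f := b)
        fun y hy => (this y hy).2, ← add_mul, h1.1, mul_assoc]
    · rw [(h2 x e).1, (h2 x e).2, ← mul_add, ih h1.2 h3.2, mul_left_comm]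

theorem wt_ne {A : Tm} {v : ℕ} {b : Bool} {l : ℕ × Bool} (h : ¬ l.1 = v) :
    wt ((v, b) :: A) l = wt A l := by simp [wt, Prod.ext_iff, h]

theorem pot2_avg {W v : ℕ} {Ps : List (List Tm)} {A : Tm} (hA : ∀ b, (v, b) ∉ A)
    (h : ∀ P ∈ Ps, (vars P).Nodup ∧ ∀ τ ∈ P, τ.length ≤ W) :
    pot2 W Ps ((v, true) :: A) + pot2 W Ps ((v, false) :: A) = 2 * pot2 W Ps A := by
  rw [pot2, pot2, pot2, ← List.sum_map_add, ← List.sum_map_mul_left]
  refine congrArg _ (List.map_congr_left fun P hP => ?_)
  obtain ⟨h1, h2⟩ := List.nodup_flatMap.1 (h P hP).1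
  refine prod_avg (p := fun τ => v ∈ τ.map Prod.fst) (fun τ hτ => ?_) (fun τ e => ?_)
    (h2.imp fun e => not_and_or.1 fun c => e c.1 c.2)
  · have h3 := prod_avg (l := τ) (a := wt ((v, true) :: A)) (b := wt ((v, false) :: A))
      (c := wt A) (p := fun l => l.1 = v) (fun ⟨u, b⟩ _ => by
        rcases eq_or_ne u v with rfl | e
        · cases b <;> simp [wt, hA]
        · rw [wt_ne e, wt_ne e, two_mul]) (fun l e => ⟨wt_ne e, wt_ne e⟩)
      ((List.pairwise_map.1 (h1 τ hτ)).imp fun e => not_and_or.1 fun c => e (c.1.trans c.2.symm))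
    have h4 : ∀ B, 2 ^ (W - τ.length) * (τ.map (wt B)).prod ≤ 2 ^ W := fun B => by
      have := List.prod_le_pow_card (τ.map (wt B)) 2 (List.forall_mem_map.2 fun l _ => by
        unfold wt; split_ifs <;> omega)
      rw [List.length_map] at this
      refine (Nat.mul_le_mul_left _ this).trans_eq ?_
      rw [← pow_add, Nat.sub_add_cancel ((h P hP).2 τ hτ)]
    have h5 := congrArg (2 ^ (W - τ.length) * ·) h3
    have := h4 ((v, true) :: A)
    have := h4 ((v, false) :: A)
    simp only [mul_add, mul_left_comm _ 2] at h5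
    simp only [fac]
    omega
  · have : ∀ b, τ.map (wt ((v, b) :: A)) = τ.map (wt A) := fun b =>
      List.map_congr_left fun l hl => wt_ne fun c => e (c ▸ List.mem_map_of_mem hl)
    simp [fac, this]

theorem asg_spec {W : ℕ} {Ps : List (List Tm)} {U : List ℕ} {A : Tm} (hU : U.Nodup)
    (hA : ∀ l ∈ A, l.1 ∉ U) (h : ∀ P ∈ Ps, (vars P).Nodup ∧ ∀ τ ∈ P, τ.length ≤ W) :
    pot2 W Ps (asg W Ps U A) ≤ pot2 W Ps A ∧ (∀ l : ℕ × Bool, l.1 ∉ U → (l ∈ asg W Ps U A ↔ l ∈ A)) ∧
      ∀ v ∈ U, ((v, false) ∈ asg W Ps U A ↔ (v, true) ∉ asg W Ps U A) := by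
  induction U generalizing A with
  | nil => simp [asg]
  | cons v U ih =>
    rw [List.nodup_cons] at hU
    have h1 : ∀ b, (v, b) ∉ A := fun b c => hA _ c (by simp)
    have h2 := pot2_avg h1 h
    rw [asg, List.foldl_cons, ← asg]
    generalize e : decide (pot2 W Ps ((v, true) :: A) ≤ pot2 W Ps A) = b
    obtain ⟨h3, h4, h5⟩ := ih (A := (v, b) :: A) hU.2 (List.forall_mem_cons.2
      ⟨hU.1, fun l hl c => hA l hl (by simp [c])⟩)
    refine ⟨h3.trans ?_, fun l hl => ?_, List.forall_mem_cons.2 ⟨?_, h5⟩⟩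
    · cases b <;> simp at e <;> omega
    · rw [List.mem_cons, not_or] at hl
      simp [h4 l hl.2, Prod.ext_iff, hl.1]
    · cases b <;> simp [h4 (v, _) hU.1, h1]

theorem two_pow_le (a n : ℕ) : 2 ^ n * (2 ^ a - 1) ^ (2 ^ a * n) ≤ (2 ^ a) ^ (2 ^ a * n) := by
  obtain ⟨b, e⟩ : ∃ b, 2 ^ a = b + 1 := ⟨2 ^ a - 1, (Nat.sub_add_cancel Nat.one_le_two_pow).symm⟩
  rw [e, pow_mul, pow_mul, ← mul_pow, Nat.add_sub_cancel]
  have := pow_add_mul_le_add_pow (Nat.zero_le b) (Nat.zero_le (2 * b + 1)) (b + 1)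
  simp only [Nat.cast_id, Nat.add_sub_cancel, pow_succ b] at this
  exact Nat.pow_le_pow_left (by rw [pow_succ b]; nlinarith [Nat.zero_le (b ^ b)]) n

end Pool.Agent.P.MP_7a71fe_lc.LD
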