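import Pool.Agent.P.MP_7a71fe_lc.LD.Pot
import Pool.Agent.P.MP_7a71fe_lc.AC.Main

/-! A restriction under which disjunctions of short terms depend on few variables. -/

namespace Pool.Agent.P.MP_7a71fe_lc.LD

open Pool.Agent.Lib.Helper47 Pool.Agent.P.MP_7a71fe_lc.AC

/-- Free variables and values of the others. -/
abbrev Rs : Type := List ℕ × Tm

def sat (y : ℕ → Bool) (τ : Tm) : Bool := τ.all fun l => y l.1 == l.2

def Dom (r : Rs) (y : ℕ → Bool) : Prop := ∀ i, i ∉ r.1 → y i = decide ((i, true) ∈ r.2)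

def Wf (r : Rs) : Prop := r.1.Nodup ∧ ∀ l ∈ r.2, l.1 ∉ r.1

/-- On the domain, `g` depends only on the variables in `S`. -/
def Dep (r : Rs) (S : List ℕ) (g : (ℕ → Bool) → Bool) : Prop :=
  ∀ y z, Dom r y → Dom r z → (∀ i ∈ S, y i = z i) → g y = g z

def Ok (V : List ℕ) (w : ℕ) (F : List Tm) : Prop :=
  ∀ τ ∈ F, (τ.map Prod.fst).Nodup ∧ τ.length ≤ w ∧ ∀ l ∈ τ, l.1 ∈ V

/-- A maximal family of disjoint terms. -/
def fam (F : List Tm) : List Tm :=
  F.foldl (fun P τ => bif τ.all (·.1 ∉ vars P) then τ :: P else P) []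

theorem mem_vars {P : List Tm} {v : ℕ} : v ∈ vars P ↔ ∃ τ ∈ P, ∃ l ∈ τ, l.1 = v := by
  simp only [vars, List.mem_flatMap, List.mem_map]

theorem fam_spec {F : List Tm} (h : ∀ τ ∈ F, (τ.map Prod.fst).Nodup) : (vars (fam F)).Nodup ∧
    fam F ⊆ F ∧ ∀ τ ∈ F, τ = [] ∨ ∃ l ∈ τ, l.1 ∈ vars (fam F) := by
  induction F using List.reverseRecOn with
  | nil => simp [fam, vars]
  | append_singleton F τ ih =>
    rw [List.forall_mem_append, List.forall_mem_singleton] at h ⊢
    obtain ⟨h1, h2, h3⟩ := ih h.1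
    rw [fam, List.foldl_append, ← fam, List.foldl_cons, List.foldl_nil]
    cases e : τ.all (·.1 ∉ vars (fam F))
    · exact ⟨h1, List.subset_append_of_subset_left _ h2, h3, .inr (by simpa using e)⟩
    · refine ⟨List.nodup_append.2 ⟨h.2, h1, ?_⟩, List.cons_subset.2 ⟨by simp,
        List.subset_append_of_subset_left _ h2⟩, fun σ hσ => (h3 σ hσ).imp_right fun ⟨l, a, b⟩ =>
          ⟨l, a, List.mem_append_right _ b⟩, ?_⟩
      · rintro _ a _ b rfl
        obtain ⟨l, c, rfl⟩ := List.mem_map.1 a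
        exact of_decide_eq_true (List.all_eq_true.1 e l c) b
      · cases τ
        exacts [.inl rfl, .inr ⟨_, .head _, .head _⟩]

/-- Substitution of values for the variables that are not kept. -/
def rs (keep x : ℕ → Bool) (F : List Tm) : List Tm :=
  (F.filter (·.all fun l => keep l.1 || x l.1 == l.2)).map (·.filter fun l => keep l.1)

theorem rs_spec {keep x y : ℕ → Bool} (h : ∀ i, keep i = false → x i = y i) (F : List Tm) :
    (rs keep x F).any (sat y) = F.any (sat y) := by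
  rw [rs, List.any_map, List.any_filter]
  refine congrArg _ (funext fun τ => ?_)
  induction τ with
  | nil => rfl
  | cons l τ ih =>
    simp only [sat, Function.comp, List.all_cons, List.filter_cons] at ih ⊢
    cases e : keep l.1
    · simp [← ih, h _ e, Bool.and_assoc]
    · simp [← ih, Bool.and_left_comm]

/-- The assignment with the bits of `m` on `B`. -/
def yv (B : List ℕ) (m : ℕ) (A : Tm) (i : ℕ) : Bool :=
  if i ∈ B then m.testBit (B.idxOf i) else decide ((i, true) ∈ A)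

/-- The values on `B`. -/
def msk (B : List ℕ) (y : ℕ → Bool) : ℕ := ofB B.length fun j => y (B.getD j 0)

theorem msk_lt {B : List ℕ} {t : ℕ} (h : B.length ≤ t) (y : ℕ → Bool) : msk B y < 2 ^ t :=
  Nat.lt_pow_two_of_testBit _ fun i hi => by simp [msk, testBit_ofB]; omega

theorem msk_bit {B : List ℕ} {i : ℕ} (h : i ∈ B) (y : ℕ → Bool) :
    (msk B y).testBit (B.idxOf i) = y i := by
  simp [msk, testBit_ofB, List.idxOf_lt_length_iff.2 h]

theorem msk_congr {B : List ℕ} {y z : ℕ → Bool} (h : ∀ i ∈ B, y i = z i) : msk B y = msk B z :=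
  congrArg (List.foldr Nat.bit 0)
    (List.map_congr_left fun _ hj => h _ (getD_mem (List.mem_range.1 hj)))

variable (w c n : ℕ) (r : Rs) (Fs : List (List Tm)) (F : List Tm)

def top : List Tm := (fam F).take (2 ^ (w + 1) * n + (4 * c + 1))

def big : Bool := (top w c n F).length == 2 ^ (w + 1) * n + (4 * c + 1)

def pats (V : List ℕ) : List Tm :=
  ((top w c n F).filter (·.all (·.1 ∉ V))).take (2 ^ (w + 1) * n)

def lv : List ℕ := pick n (Fs.map fun F => vars (top w c n F)) r.1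

/-- One round. -/
def nx : Rs := (lv w c n r Fs, asg (w + 1) ((Fs.filter (big w c n)).map
  fun F => pats w c n F (lv w c n r Fs)) (r.1.filter (· ∉ lv w c n r Fs)) r.2)

def bv : List ℕ := r.1.filter (· ∈ vars (top w c n F))

def br (m : ℕ) : List Tm := bif big w c n F then [[]] else
  rs (fun i => decide (i ∈ r.1) && decide (i ∉ vars (top w c n F))) (yv (bv w c n r F) m r.2) F

def brs : List (List Tm) := Fs.flatMap fun F => (List.range (2 ^ (4 * c + 1))).map (br w c n r F)

/-- The restriction. -/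
def sw : ℕ → ℕ → Rs → List (List Tm) → Rs
  | 0, _, r, _ => r
  | w + 1, c, r, Fs => sw w (4 * c + 1) (nx w c (n ^ 4 ^ w) r Fs)
      (brs w c (n ^ 4 ^ w) (nx w c (n ^ 4 ^ w) r Fs) Fs)

/-- The relevant variables. -/
def sp : ℕ → ℕ → Rs → List (List Tm) → List Tm → List ℕ
  | 0, _, _, _, _ => []
  | w + 1, c, r, Fs, F => bv w c (n ^ 4 ^ w) (nx w c (n ^ 4 ^ w) r Fs) F ++
      (List.range (2 ^ (4 * c + 1))).flatMap fun m => sp w (4 * c + 1) (nx w c (n ^ 4 ^ w) r Fs)
        (brs w c (n ^ 4 ^ w) (nx w c (n ^ 4 ^ w) r Fs) Fs)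
        (br w c (n ^ 4 ^ w) (nx w c (n ^ 4 ^ w) r Fs) F m)

/-- The number of relevant variables. -/
def Jw : ℕ → ℕ → ℕ
  | 0, _ => 0
  | w + 1, c => 4 * c + 1 + 2 ^ (4 * c + 1) * Jw w (4 * c + 1)

variable {w c n r Fs F}

theorem hit_le (V : List ℕ) (P : List Tm) :
    P.length ≤ (P.filter (·.all (·.1 ∉ V))).length + (vars P).countP (· ∈ V) := by
  induction P with
  | nil => simp
  | cons τ P ih =>
    rw [vars, List.flatMap_cons, List.countP_append, ← vars, List.filter_cons]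
    split_ifs with e
    · simp only [List.length_cons]; omega
    · obtain ⟨l, hl, h⟩ := List.all_eq_false.1 (Bool.eq_false_iff.2 e)
      have : 0 < (τ.map Prod.fst).countP (· ∈ V) :=
        List.countP_pos_iff.2 ⟨_, List.mem_map_of_mem hl, by simpa using h⟩
      simp only [List.length_cons]; omega

theorem nx_spec (h0 : 2 * ((2 ^ (w + 1) + (4 * c + 1)) * (w + 1)) + 3 ≤ n)
    (h0' : (n ^ 4) ^ c < 2 ^ n) (hr : Wf r) (h1 : n ^ 4 ≤ r.1.length) (h2 : Fs.length ≤ (n ^ 4) ^ c)
    (h3 : ∀ F ∈ Fs, Ok r.1 (w + 1) F) :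
    Wf (nx w c n r Fs) ∧ (nx w c n r Fs).1.length = n ∧ (∀ y, Dom (nx w c n r Fs) y → Dom r y) ∧
      ∀ F ∈ Fs, (bv w c n (nx w c n r Fs) F).length ≤ 4 * c + 1 ∧
        (∀ m, Ok (nx w c n r Fs).1 w (br w c n (nx w c n r Fs) F m)) ∧
        ∀ y, Dom (nx w c n r Fs) y → (br w c n (nx w c n r Fs) F
          (msk (bv w c n (nx w c n r Fs) F) y)).any (sat y) = F.any (sat y) := by
  have f1 := fun F hF => fam_spec fun τ hτ => (h3 F hF τ hτ).1
  have f2 : ∀ F ∈ Fs, top w c n F ⊆ F := fun F hF _ h => (f1 F hF).2.1 (List.mem_of_mem_take h)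
  have f3 : ∀ F ∈ Fs, (vars (top w c n F)).Nodup := fun F hF =>
    (f1 F hF).1.sublist ((List.take_sublist _ _).flatMap _)
  obtain ⟨a1, a2, a3, a4⟩ := pick_spec (Hs := Fs.map fun F => vars (top w c n F)) (t := 4 * c + 1)
    (l := (2 ^ (w + 1) * n + (4 * c + 1)) * (w + 1)) hr.1 (List.forall_mem_map.2 fun F hF => by
      rw [vars, List.length_flatMap]
      refine (List.sum_le_card_nsmul _ (w + 1) (List.forall_mem_map.2 fun τ hτ => ?_)).trans ?_
      · simpa using (h3 F hF τ (f2 F hF hτ)).2.1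
      · rw [List.length_map]
        exact Nat.mul_le_mul_right _ (List.length_take_le _ _))
    (le_trans (by
      have a := Nat.mul_le_mul_right (n * n * n) h0
      have b : 4 * c + 1 ≤ (4 * c + 1) * n := Nat.le_mul_of_pos_right _ (by omega)
      have b' := Nat.mul_le_mul_left (2 * (n * n) * (w + 1)) b
      have c : n ≤ n * n * n := by nlinarith [show 1 ≤ n * n by nlinarith]
      nlinarith [Nat.zero_le (n * n * n)]) h1)
    (by
      rw [List.length_map, pow_succ, pow_succ, pow_mul]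
      have a : 3 ≤ n := by omega
      have : 0 < (n ^ 4) ^ c := by positivity
      nlinarith [Nat.mul_le_mul a a]) (by omega)
  rw [← lv] at a1 a2 a3 a4
  rw [List.forall_mem_map] at a4
  have f4 : ∀ F, (pats w c n F (lv w c n r Fs)).Sublist (top w c n F) := fun F =>
    (List.take_sublist _ _).trans List.filter_sublist
  have b0 : ∀ P ∈ (Fs.filter (big w c n)).map fun F => pats w c n F (lv w c n r Fs),
      P.length = 2 ^ (w + 1) * n ∧ (vars P).Nodup ∧ ∀ τ ∈ P, τ.length ≤ w + 1 ∧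
        ∀ l ∈ τ, l.1 ∈ r.1.filter (· ∉ lv w c n r Fs) := List.forall_mem_map.2 fun F hF => by
    obtain ⟨hF, hb⟩ := List.mem_filter.1 hF
    have := hit_le (lv w c n r Fs) (top w c n F)
    have := (cnt_le (f3 F hF)).trans (a4 F hF)
    have := beq_iff_eq.1 hb
    refine ⟨List.length_take_of_le (by omega), (f3 F hF).sublist ((f4 F).flatMap _), fun τ hτ => ?_⟩
    obtain ⟨-, a, b⟩ := h3 F hF τ (f2 F hF ((f4 F).subset hτ))
    exact ⟨a, fun l hl => List.mem_filter.2 ⟨b l hl,
      List.all_eq_true.1 (List.mem_filter.1 (List.mem_of_mem_take hτ)).2 l hl⟩⟩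
  obtain ⟨b1, b2, b3⟩ := asg_spec (W := w + 1) (hr.1.filter (· ∉ lv w c n r Fs))
    (fun l hl c => hr.2 l hl (List.mem_filter.1 c).1) fun P hP =>
      ⟨(b0 P hP).2.1, fun τ hτ => ((b0 P hP).2.2 τ hτ).1⟩
  have b4 := List.sum_le_card_nsmul _ ((2 ^ (w + 1) - 1) ^ (2 ^ (w + 1) * n))
    (List.forall_mem_map (f := fun P : List Tm => (P.map (fac (w + 1) r.2)).prod).2 fun P hP => by
      rw [← (b0 P hP).1, ← P.length_map (fac (w + 1) r.2)]
      refine List.prod_le_pow_card _ _ (List.forall_mem_map.2 fun τ hτ => Nat.sub_le_sub_left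
        (Nat.mul_pos (Nat.two_pow_pos _) (List.prod_pos (List.forall_mem_map.2 fun l hl => ?_))) _)
      have := (List.mem_filter.1 (((b0 P hP).2.2 τ hτ).2 l hl)).1
      rw [wt, if_neg fun c => hr.2 _ c this, if_neg fun c => hr.2 (l.1, !l.2) c this]
      exact one_pos)
  rw [List.length_map, List.length_map, smul_eq_mul] at b4
  replace b4 := (b1.trans (b4.trans (Nat.mul_le_mul_right _ ((List.length_filter_le _ _).trans
    h2)))).trans_lt ((Nat.mul_lt_mul_of_pos_right h0' (pow_pos (Nat.sub_pos_of_lt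
      (Nat.one_lt_two_pow (by omega))) _)).trans_le (two_pow_le _ _))
  simp only [nx]
  generalize asg _ _ _ _ = A at *
  generalize lv w c n r Fs = V at *
  refine ⟨⟨a1, fun l hl c => hr.2 l ((b2 l (by simp [c])).1 hl) (a2 c)⟩, a3, fun y hy i hi => by
    rw [hy i fun c => hi (a2 c), decide_eq_decide.2 (b2 _ (by simp [hi]))], fun F hF =>
    ⟨List.countP_eq_length_filter.ge.trans (a4 F hF), fun m => ?_, fun y hy => ?_⟩⟩
  · rw [br]
    cases e : big w c n F
    · refine List.forall_mem_map.2 fun τ hτ => ?_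
      replace hτ := (List.mem_filter.1 hτ).1
      obtain ⟨a, b, -⟩ := h3 F hF τ hτ
      refine ⟨a.sublist (List.filter_sublist.map _), ?_, fun l hl => by
        simp at hl; exact hl.2.1⟩
      rcases (f1 F hF).2.2 τ hτ with rfl | ⟨l, hl, h⟩
      · simp
      · rw [top, List.take_of_length_le (by simp [big, top] at e; omega)]
        exact Nat.le_of_lt_succ ((List.length_filter_lt_length_iff_exists.2
          ⟨l, hl, by simp [h]⟩).trans_le b)
    · simp [Ok]
  · rw [br]
    cases e : big w c n F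
    · refine (cond_false _ _).symm ▸ rs_spec (fun i hi => ?_) F
      rw [yv]
      split_ifs with a
      · exact msk_bit a y
      · exact (hy i fun b => by simp [bv, b] at a hi; exact a hi).symm
    · refine (Bool.eq_true_of_not_eq_false fun a => ?_).symm
      have hP := List.mem_map_of_mem (f := fun F => pats w c n F V) (List.mem_filter.2 ⟨hF, e⟩)
      refine b4.not_ge (le_trans ?_ (List.single_le_sum (fun _ _ => Nat.zero_le _) _
        (List.mem_map_of_mem hP)))
      rw [← (b0 _ hP).1, ← (pats w c n F V).length_map (fac (w + 1) A)]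
      refine List.pow_card_le_prod _ _ (List.forall_mem_map.2 fun τ hτ => ?_)
      obtain ⟨⟨v, b⟩, hl, h⟩ := List.all_eq_false.1 (Bool.eq_false_iff.2 (List.any_eq_false.1 a τ
        (f2 F hF ((f4 F).subset hτ))))
      have h4 := ((b0 _ hP).2.2 τ hτ).2 _ hl
      have h5 := b3 v h4
      rw [hy v (of_decide_eq_true (List.mem_filter.1 h4).2)] at h
      rw [fac, List.prod_eq_zero (List.mem_map.2 ⟨_, hl, by cases b <;> simp_all [wt]⟩)]
      rfl

theorem sw_spec (w c : ℕ) : ∃ N, ∀ n, N ≤ n → ∀ r Fs, Wf r → n ^ 4 ^ w ≤ r.1.length →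
    Fs.length ≤ (n ^ 4 ^ w) ^ c → (∀ F ∈ Fs, Ok r.1 w F) →
    Wf (sw n w c r Fs) ∧ n ≤ (sw n w c r Fs).1.length ∧ (∀ y, Dom (sw n w c r Fs) y → Dom r y) ∧
      ∀ F ∈ Fs, (sp n w c r Fs F).length ≤ Jw w c ∧
        Dep (sw n w c r Fs) (sp n w c r Fs F) fun y => F.any (sat y) := by
  induction w generalizing c with
  | zero =>
    refine ⟨0, fun n _ r Fs hr h1 _ h => ⟨hr, (pow_one n).ge.trans h1, fun _ => id, fun F hF =>
      ⟨le_rfl, fun y z _ _ _ => ?_⟩⟩⟩
    rw [Bool.eq_iff_iff, List.any_eq_true, List.any_eq_true]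
    refine exists_congr fun τ => and_congr_right fun hτ => ?_
    rw [List.length_eq_zero_iff.1 (Nat.le_zero.1 (h F hF τ hτ).2.1)]
    rfl
  | succ w ih =>
    obtain ⟨N, ih⟩ := ih (4 * c + 1)
    obtain ⟨N', hN⟩ := poly_lt (g := fun n => (n ^ 4) ^ c) ((PB.self.pow 4).pow c)
    refine ⟨N + N' + 2 ^ (4 * c + 1) + (2 * ((2 ^ (w + 1) + (4 * c + 1)) * (w + 1)) + 3),
      fun n hn r Fs hr h1 h2 h3 => ?_⟩
    have a : n ≤ n ^ 4 ^ w := Nat.le_self_pow (by positivity) n
    have a' := Nat.zero_le (2 ^ (4 * c + 1))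
    replace ih := ih n (by omega)
    rw [pow_succ 4, pow_mul] at h1 h2
    obtain ⟨h4, h5, h6, h7⟩ := nx_spec (by omega) (hN _ (by omega)) hr h1 h2 h3
    simp only [sw, sp]
    generalize nx w c (n ^ 4 ^ w) r Fs = r' at *
    generalize n ^ 4 ^ w = n' at *
    have h8 : ∀ F ∈ Fs, ∀ m < 2 ^ (4 * c + 1), br w c n' r' F m ∈ brs w c n' r' Fs :=
      fun F hF m hm => List.mem_flatMap.2 ⟨F, hF, List.mem_map_of_mem (List.mem_range.2 hm)⟩
    obtain ⟨b1, b2, b3, b4⟩ := ih r' (brs w c n' r' Fs) h4 h5.ge (by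
      rw [pow_succ, pow_mul]
      simpa [brs] using Nat.mul_le_mul h2 (show 2 ^ (4 * c + 1) ≤ n' by omega))
      (List.forall_mem_flatMap.2 fun F hF => List.forall_mem_map.2 fun m _ => (h7 F hF).2.1 m)
    refine ⟨b1, b2, fun y hy => h6 y (b3 y hy), fun F hF => ⟨?_, fun y z hy hz e => ?_⟩⟩
    · rw [List.length_append, List.length_flatMap]
      refine Nat.add_le_add (h7 F hF).1 ((List.sum_le_card_nsmul _ _ (List.forall_mem_map.2
        fun m hm => (b4 _ (h8 F hF m (List.mem_range.1 hm))).1)).trans_eq (by simp))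
    · rw [List.forall_mem_append] at e
      have := msk_lt (h7 F hF).1 z
      dsimp only
      rw [← (h7 F hF).2.2 y (b3 y hy), ← (h7 F hF).2.2 z (b3 z hz), msk_congr e.1]
      exact (b4 _ (h8 F hF _ this)).2 y z hy hz fun i hi =>
        e.2 i (List.mem_flatMap.2 ⟨_, List.mem_range.2 this, hi⟩)

end Pool.Agent.P.MP_7a71fe_lc.LD
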