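import Pool.Agent.P.MP_7a71fe_lc.LD.Core
import Pool.Agent.P.MP_7a71fe_lc.AC.Main

/-! The construction runs in polynomial time. -/

namespace Pool.Agent.P.MP_7a71fe_lc.LD

open Pool.Agent.Lib.Helper47 Pool.Agent.P.MP_ba7db8_lc Pool.Agent.P.MP_7a71fe_lc.AC

variable {α ι κ : Type} [Enc α] [Enc ι] [Enc κ]

@[fun_prop] theorem pt_S {T : α → List ℕ} {h : α → ℕ → Bool} {m : α → ℕ} (hT : PT T)
    (hh : PT fun p : α × ℕ => h p.1 p.2) (hm : PT m) : PT fun a => S (T a) (h a) (m a) :=
  PT.bodd (PT.countP (by fun_prop) (PT.rangeLength hT))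

theorem pt_ofB {n : α → ℕ} {h : α → ℕ → Bool} (hn : PT n) (hb : PS n)
    (hh : PT fun p : α × ℕ => h p.1 p.2) : PT fun a => ofB (n a) (h a) :=
  (PT.msb (PT.reverse (PT.map hh (PT.range hn hb))) (PT.const 0)).of_eq fun _ =>
    List.foldl_reverse

@[fun_prop] theorem pt_comb {Y : α → List ℕ} {m : α → ℕ} (hY : PT Y) (hm : PT m) :
    PT fun a => comb (Y a) (m a) :=
  pt_ofB (by fun_prop) ((ps_length (PT.flatMap (g := fun _ => Nat.bits) (by fun_prop) hY)).mono
    fun _ => List.length_flatMap.ge) (by fun_prop)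

@[fun_prop] theorem pt_xor {x y : α → ℕ} (hx : PT x) (hy : PT y) : PT fun a => x a ^^^ y a :=
  (pt_comb (Y := fun a => [] ++ [x a] ++ [y a]) (by fun_prop) (PT.const 3)).of_eq fun a => by
    rw [comb_snoc, comb_snoc, comb_nil, Nat.zero_xor]
    exact congrArg₂ (fun b c => (bif b then x a else 0) ^^^ bif c then y a else 0)
      (by decide : Nat.testBit 3 0 = true) (by decide : Nat.testBit 3 1 = true)

theorem pt_units {n : α → ℕ} (hn : PT n) (hb : PS n) : PT fun a => units (n a) :=
  pt_rmap (g := fun _ i => 2 ^ i) hn hb (PT.pow (PT.const 2) (pt_min hn) (ps_min hb))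

theorem size_vecs {l : List ℕ} {n N : ℕ} (h : l.length ≤ n) (h' : ∀ y ∈ l, y < 2 ^ N) :
    size l ≤ n * (4 * N + 2) + 1 :=
  (size_list_le fun y hy => size_nat_le_of_lt_pow (h' y hy)).trans (by gcongr)

theorem ps_vecs {n N : α → ℕ} (h : PS n) (h' : PS N) : PS fun a => n a * (4 * N a + 2) + 1 :=
  (h.mul (((PB.const 4).mul h').add (PB.const 2))).add (PB.const 1)

theorem lt_size {l : List ℕ} {y : ℕ} (h : y ∈ l) : y < 2 ^ size l :=
  (lt_two_pow_size y).trans_le (Nat.pow_le_pow_right two_pos (size_lt_of_mem h).le)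

@[fun_prop] theorem pt_kers {ψ : α → ι → ℕ → Bool} {I : α → List ι} {R : α → List ℕ}
    (hψ : PT fun p : α × ι × ℕ => ψ p.1 p.2.1 p.2.2) (hI : PT I) (hR : PT R) :
    PT fun a => kers (ψ a) (I a) (R a) :=
  PT.foldl (f := fun a R i => elim (ψ a i) R) (by unfold elim; fun_prop) hI hR _
    (ps_vecs (ps_length hR) hR.size_le) fun a u _ => size_vecs (length_kers (ψ a) u _).le
      fun _ h => (kers_sp (ψ := ψ a) h).lt fun _ => lt_size

@[fun_prop] theorem pt_Dr (r : ℕ) {l : α → List ℕ} {h : α → ℕ → Bool} {x : α → ℕ} (hl : PT l)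
    (hh : PT fun p : α × ℕ => h p.1 p.2) (hx : PT x) : PT fun a => Dr r (l a) (h a) (x a) := by
  induction r generalizing l x with
  | zero => exact hh.comp (PT.prodMk PT.id hx)
  | succ r ih => exact PT.xor (ih (PT.tail hl) (by fun_prop)) (ih (PT.tail hl) hx)

@[fun_prop] theorem pt_tuples (r : ℕ) : PT (tuples r) := by
  induction r with
  | zero => exact PT.const _
  | succ r ih => exact PT.flatMap (g := fun Y y => (tuples r Y).map (y :: ·)) (by fun_prop) PT.id

@[fun_prop] theorem pt_sums (r : ℕ) : PT (sums r) := by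
  induction r with
  | zero => exact PT.const _
  | succ r ih =>
    exact PT.flatMap (g := fun Y y => (sums r Y).map (y ^^^ ·)) (by fun_prop) (by fun_prop)

@[fun_prop] theorem pt_sprod {l : α → List ι} {m : α → List κ} (hl : PT l) (hm : PT m) :
    PT fun a => l a ×ˢ m a := PT.flatMap (g := fun a x => (m a).map (x, ·)) (by fun_prop) hl

theorem pt_kill (r : ℕ) {g : α → ι → ℕ → Bool} {I : α → List ι} {β n : α → ℕ}
    (hg : PT fun p : α × ι × ℕ => g p.1 p.2.1 p.2.2) (hI : PT I) (hβ : PT β) (hβ' : PS β)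
    (hn : PT n) (hn' : PS n) : PT fun a => kill r (g a) (I a) (β a) (n a) := by
  have h1 : PT fun p : α × List ℕ => 2 ^ (p.2.length * β p.1) :=
    PT.pow (PT.const 2) (by fun_prop) ((ps_length (PT.snd PT.id)).mul (ps_fst hβ'))
  have h2 := (pt_units hβ hβ').comp (PT.fst (PT.id (α := α × List ℕ)))
  refine (PT.iterate (f := fun a Y => Y ++ [nxt r (g a) (I a) (β a) Y * 2 ^ (Y.length * β a)])
    (PT.append (by fun_prop) (PT.cons (PT.mul (PT.optGetD (PT.find? (by fun_prop) (pt_kers
      (pt_Dr _ (PT.cons (PT.mul (by fun_prop) (h1.comp (PT.fst PT.id))) (by fun_prop))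
        (by fun_prop) (PT.const 0)) (by fun_prop) h2)) (PT.const 0)) h1) (PT.const _)))
    (PT.range hn hn') (PT.const []) _ (ps_vecs hn' (hn'.mul hβ')) fun a i hi => ?_).of_eq
      fun a => by rw [List.length_range, kill]
  obtain ⟨h3, h4⟩ := kill_len r (g a) (I a) (β a) i
  rw [List.length_range] at hi
  exact size_vecs (h3.trans_le hi) fun y hy => (h4 y hy).trans_le (by gcongr; omega)

theorem pt_Nc (r : ℕ) {c n : α → ℕ} (hc : PT c) (hn : PT n) : PT fun a => Nc r (c a) (n a) := by
  induction r with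
  | zero => exact hn
  | succ r ih =>
    exact PT.mul ih (PT.add (PT.mul hc (PT.pow ih (PT.const r) (PB.const r))) (PT.const 1))

theorem pb_Nc (r : ℕ) {α : Type} {s c n : α → ℕ} (hc : PB s c) (hn : PB s n) :
    PB s fun a => Nc r (c a) (n a) := by
  induction r with
  | zero => exact hn
  | succ r ih => exact ih.mul ((hc.mul (ih.pow r)).add (PB.const 1))

theorem pt_Nm (r : ℕ) {c : α → ℕ} (hc : PT c) : PT fun a => Nm (c a) r := by
  induction r with
  | zero => exact PT.const 1
  | succ r ih => exact pt_Nc _ hc ih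

theorem pb_Nm (r : ℕ) {α : Type} {s c : α → ℕ} (hc : PB s c) : PB s fun a => Nm (c a) r := by
  induction r with
  | zero => exact PB.const 1
  | succ r ih => exact pb_Nc _ hc ih

theorem pt_cst (r : ℕ) {g : α → ι → ℕ → Bool} {I : α → List ι} {c n : α → ℕ}
    (hg : PT fun p : α × ι × ℕ => g p.1 p.2.1 p.2.2) (hI : PT I) (hc : PT c) (hc' : PS c)
    (hn : PT n) (hn' : PS n) : PT fun a => cst r (g a) (I a) (c a) (n a) := by
  induction r generalizing g with
  | zero => exact pt_units hn hn'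
  | succ r ih =>
    have h1 := pt_Nc r hc hn
    have h2 := pb_Nc r hc' hn'
    have h := pt_kill r hg hI (PT.add (PT.mul hc (PT.pow h1 (PT.const r) (PB.const r)))
      (PT.const 1)) ((hc'.mul (h2.pow r)).add (PB.const 1)) h1 h2
    exact PT.map (pt_comb (h.comp (PT.fst PT.id)) (PT.snd PT.id)) (ih (hg.comp
      (PT.prodMk (PT.fst PT.id) (PT.prodMk (by fun_prop)
        (pt_comb (h.comp (PT.fst PT.id)) (by fun_prop))))))

@[fun_prop] theorem pt_pnt {C : α → List Cd} {t : α → ℕ} (hC : PT C) (ht : PT t) :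
    PT fun a => pnt (C a) (t a) := by
  have h : PT fun a => (C a).map (mv (t a)) := by unfold mv; fun_prop
  refine PT.foldl_inv (by fun_prop) h (PT.const 0)
    (fun a x => x < 2 ^ size ((C a).map (mv (t a)))) (fun _ => Nat.two_pow_pos _)
    (fun _ _ _ hx h => Nat.xor_lt_two_pow h (lt_size hx)) _
    (((PB.const 4).mul h.size_le).add (PB.const 1)) fun _ _ => size_nat_le_of_lt_pow

variable (r : ℕ) {f : α → ℕ → ℕ → Bool} {M k n : α → ℕ} {T : α → List ℕ} {C : α → List Cd}
  (hf : PT fun p : α × ℕ × ℕ => f p.1 p.2.1 p.2.2) (hT : PT T)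
include hf hT

theorem pt_rel (hC : PT C) : PT fun a => rel (f a) (T a) (C a) :=
  pt_kers (by fun_prop) hC (pt_units (PT.length hT) (ps_length hT))

theorem pt_sub (hC : PT C) (hn : PT n) (hn' : PS n) :
    PT fun a => sub r (f a) (n a) (T a) (C a) :=
  pt_cst _ (by fun_prop) (by fun_prop) (by fun_prop) ((ps_length hT).mul (ps_length hT)) hn hn'

variable (hM : PT M) (hM' : PS M)
include hM hM'

theorem pt_dcd (hC : PT C) {y : α → ℕ → Bool} (hy : PT fun p : α × ℕ => y p.1 p.2) :
    PT fun a => dcd (f a) (M a) (T a) (C a) (y a) :=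
  pt_comb hT (PT.optGetD (PT.find? (by fun_prop) (pt_kers (by fun_prop) (PT.range hM hM')
    (pt_units (by fun_prop) ((ps_length hT).add (PB.const 1))))) (PT.const 0))

variable (hk : PT k) (hk' : PS k)
include hk hk'

theorem pt_loop (hn : PT n) (hn' : PS n) :
    PT fun a => loop r (f a) (M a) (k a) (n a) (T a) := by
  have h1 := PT.range hM hM'
  have h2 := PT.range hk hk'
  have h3 : PT fun p : α × List Cd × ℕ => sub r (f p.1) (n p.1) (T p.1) p.2.1 :=
    pt_sub r (by fun_prop) (by fun_prop) (by fun_prop) (by fun_prop) (ps_fst hn')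
  have h4 : PT fun p : (α × List Cd × ℕ) × Cd => rel (f p.1.1) (T p.1.1) p.1.2.1 :=
    pt_rel (by fun_prop) (by fun_prop) (by fun_prop)
  refine (PT.foldl_add (f := fun a C _ => step r (f a) (M a) (k a) (n a) (T a) C)
    (PT.append (by fun_prop) (PT.toList (PT.find? (PT.any (by fun_prop) h4)
      (pt_sprod (h1.comp (PT.fst PT.id)) (pt_sprod (h2.comp (PT.fst PT.id))
        (pt_sprod ((pt_sums r).comp h3) (PT.cons (PT.const 0) h3)))))))
    (PT.cons (PT.const 0) hT) (PT.const [])
    (fun a => 8 * (M a + k a + Nc (r + 1) ((T a).length * (T a).length) (n a) + 1))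
    ((PB.const 8).mul (((hM'.add hk').add (pb_Nc _ ((ps_length hT).mul (ps_length hT)) hn')).add
      (PB.const 1))) fun a C _ _ => ?_).of_eq fun a => PT.foldl_const_eq_iterate _ _ _
  rw [step]
  cases e : (cands _ _ _ _).find? (imp (f a) (T a) C) with
  | none => simp
  | some c =>
    obtain ⟨h5, h6, h7, h8⟩ := mem_cands.1 (List.mem_of_find?_eq_some e)
    have := size_nat_le_of_lt_pow ((sp_sums h7).lt (cst_len _ _ _ _ _).2)
    have := size_nat_le_of_lt_pow ((sp_cons h8).lt (cst_len _ _ _ _ _).2)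
    have := size_nat_le c.1
    have := size_nat_le c.2.1
    have := size_append C [c]
    rw [size_cons, size_nil, size_prod, size_prod, size_prod] at this
    rw [Option.toList_some]
    omega

theorem pt_core : PT fun a => core (M a) (k a) (T a) r (f a) := by
  induction r generalizing f with
  | zero => exact PT.const _
  | succ r ih =>
    have h1 := pt_Nm r (PT.mul (PT.length hT) (PT.length hT))
    have h2 := pb_Nm r ((ps_length hT).mul (ps_length hT))
    have h3 := pt_loop r hf hT hM hM' hk hk' h1 h2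
    have h4 := pt_sub r hf hT h3 h1 h2
    have h5 : ∀ {Y : α → List ℕ} (o : α → List Cd × ℕ), PT Y →
        (o = fun a => core (M a) (k a) (T a) r fun j x => f a j (comb (Y a) x)) →
        PT fun a => ((o a).1.map (mp (Y a)), comb (Y a) (o a).2) := fun {Y} o hY e => by
      have : PT o := e ▸ ih (f := fun a j x => f a j (comb (Y a) x)) (by fun_prop)
      unfold mp
      fun_prop
    exact PT.cond (PT.all (g := fun a μ => comb (T a) μ == 0) (by fun_prop) (pt_rel hf hT h3))
      (PT.prodMk h3 (PT.const 0)) (h5 _ h4 rfl)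

end Pool.Agent.P.MP_7a71fe_lc.LD
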